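import Pool.Agent.T9h95.S3.Key
import Pool.Agent.Q267.MW.D8

set_option autoImplicit false

/-!
# The split case
-/

namespace Pool.Agent.T9h95.S3

open Finset Pool.Agent.Q267.CDE Pool.Agent.Q267.MW

section conv

variable (p : ℕ) [hp : Fact p.Prime]

theorem num_dvd (h2 : p ≠ 2) (q : ℚ) (N : ℕ) (M : ℤ) (h : q * 8 ^ N = M)
    (hM : (p : ℤ) ^ 2 ∣ M) : (p : ℤ) ^ 2 ∣ q.num := by
  have h1 : (q.num : ℚ) * 8 ^ N = M * q.den := by
    rw [← h]
    have := Rat.mul_den_eq_num q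
    linear_combination (-8 ^ N) * this
  have h2' : q.num * 8 ^ N = M * q.den := by exact_mod_cast h1
  have hc : IsCoprime ((p : ℤ) ^ 2) (8 ^ N) := by
    apply IsCoprime.pow
    rw [show (8 : ℤ) = 2 ^ 3 by norm_num]
    apply IsCoprime.pow_right
    have := (Nat.coprime_primes hp.out Nat.prime_two).2 h2
    exact_mod_cast Nat.isCoprime_iff_coprime.2 this
  exact hc.dvd_of_dvd_mul_right (h2' ▸ hM.mul_right _)

/-- the integral form of the sum -/
def MS : ℤ := ∑ k ∈ range p, ((((2 * k).choose k) ^ 2 * (3 * k).choose k * 8 ^ (p - 1 - k) : ℕ) : ℤ)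

omit hp in
theorem MS_rat : (∑ k ∈ range p,
    ((Nat.choose (2 * k) k : ℚ) ^ 2 * (Nat.choose (3 * k) k : ℚ)) / (8 : ℚ) ^ k) * 8 ^ (p - 1) =
    ((MS p : ℤ) : ℚ) := by
  unfold MS
  push_cast
  rw [sum_mul]
  refine sum_congr rfl fun k hk => ?_
  have hk' : k < p := mem_range.mp hk
  have : (8 : ℚ) ^ (p - 1) = 8 ^ k * 8 ^ (p - 1 - k) := by
    rw [← pow_add]
    congr 1
    omega
  rw [this]
  field_simp

omit hp in
theorem MS_alg (A : Type*) [CommRing A] (Z : A) (hZ : 8 * Z = 1) :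
    ((MS p : ℤ) : A) = 8 ^ (p - 1) * ∑ k ∈ range p, (((2 * k).choose k * c k : ℕ) : A) * Z ^ k := by
  unfold MS
  push_cast
  rw [mul_sum]
  refine sum_congr rfl fun k hk => ?_
  have hk' : k < p := mem_range.mp hk
  have h1 : (8 : A) ^ (p - 1) = 8 ^ (p - 1 - k) * 8 ^ k := by
    rw [← pow_add]
    congr 1
    omega
  have h2 : (8 : A) ^ k * Z ^ k = 1 := by rw [← mul_pow, hZ, one_pow]
  have h3 : ((c k : ℕ) : A) = ((2 * k).choose k : A) * ((3 * k).choose k : A) := by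
    unfold c
    push_cast
    rfl
  rw [h1, h3]
  linear_combination (-((2 * k).choose k : A) ^ 2 * ((3 * k).choose k : A) * 8 ^ (p - 1 - k)) * h2

end conv

variable (p : ℕ) [hp : Fact p.Prime]

/-- square roots lift -/
theorem lift_sqrt (h2 : p ≠ 2) (a : ℤ) (s0 : ZMod p) (hs : s0 ^ 2 = a) (hs0 : s0 ≠ 0) :
    ∃ s : R p, s ^ 2 = a ∧ red p s = s0 := by
  have hpp := p_sq p
  obtain ⟨z, hz⟩ := red_eq_of p (lift p s0 ^ 2) (a : R p) (by
    rw [map_pow, red_lift, hs, red_int])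
  have h2' : (2 : ZMod p) ≠ 0 := by
    have h := Pool.Agent.Q267.CDE.cast_ne p 2 (by norm_num)
      (lt_of_le_of_ne hp.out.two_le (Ne.symm h2))
    exact_mod_cast h
  have hu : IsUnit (2 * lift p s0) := by
    apply isUnit_of_red
    rw [map_mul, map_ofNat, red_lift]
    exact mul_ne_zero h2' hs0
  obtain ⟨v, hv⟩ := hu.exists_right_inv
  refine ⟨lift p s0 - p * (v * z), ?_, ?_⟩
  · linear_combination hz - p * z * hv + (v * z) ^ 2 * hpp
  · rw [map_sub, map_mul, red_nat, ZMod.natCast_self, zero_mul, sub_zero, red_lift]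

/-- the trace at the point of discriminant `-8` -/
theorem tr_eight (h3 : 3 < p) (s t : ZMod p) (hs : s ^ 2 = -2) (ht : 108 * t = 2 - 5 * s) :
    (tr p t) ^ 2 = (∑ x : ZMod p, quadraticChar (ZMod p) (x ^ 3 - 30 * x + 56)) ^ 2 := by
  have n2 : (2 : ZMod p) ≠ 0 := by exact_mod_cast ne_small p 2 1 0 h3 (by norm_num)
  have n3 : (3 : ZMod p) ≠ 0 := by exact_mod_cast ne_small p 3 0 1 h3 (by norm_num)
  have n6 : (6 : ZMod p) ≠ 0 := by exact_mod_cast ne_small p 6 1 1 h3 (by norm_num)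
  have n12 : (12 : ZMod p) ≠ 0 := by exact_mod_cast ne_small p 12 2 1 h3 (by norm_num)
  have n54 : (54 : ZMod p) ≠ 0 := by exact_mod_cast ne_small p 54 1 3 h3 (by norm_num)
  have n27' := n27 p h3
  have hU : ∃ U : ZMod p, 6 * U = 2 + s := ⟨(2 + s) / 6, by field_simp⟩
  obtain ⟨U, hU⟩ := hU
  have hU0 : U ≠ 0 := by
    rintro rfl
    apply n6
    linear_combination (-(2 - s)) * hU + hs
  have ht0 : t ≠ 0 := by
    rintro rfl
    apply n54
    linear_combination (-(2 + 5 * s)) * ht + 25 * hs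
  have h12t : 12 * t ≠ 0 := mul_ne_zero n12 ht0
  have P1 : 72 * t - 3 + 30 * U ^ 2 = 0 := by
    apply (mul_eq_zero.mp _).resolve_left n6
    linear_combination 4 * ht + 5 * (6 * U + 2 + s) * hU + 5 * hs
  have P2 : 2 - 72 * t + 432 * t ^ 2 - 56 * U ^ 3 = 0 := by
    apply (mul_eq_zero.mp _).resolve_left n27'
    linear_combination (-18 + (108 * t + 2 - 5 * s)) * ht -
      7 * ((6 * U) ^ 2 + 6 * U * (2 + s) + (2 + s) ^ 2) * hU - (17 + 7 * s) * hs
  have e1 : ∀ X : ZMod p, quadraticChar (ZMod p) 3 *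
      quadraticChar (ZMod p) ((1 - (1 - U * X) * (12 * t)⁻¹) ^ 2 -
        4 * t * ((1 - U * X) * (12 * t)⁻¹) ^ 3) =
      quadraticChar (ZMod p) U * quadraticChar (ZMod p) (X ^ 3 - 30 * X + 56) := by
    intro X
    set u := (1 - U * X) * (12 * t)⁻¹ with hu
    have hu' : 12 * t * u = 1 - U * X := by
      rw [hu]
      have := mul_inv_cancel₀ h12t
      linear_combination (1 - U * X) * this
    have h1 : 3 * (12 * t) ^ 2 * ((1 - u) ^ 2 - 4 * t * u ^ 3) =
        U * U ^ 2 * (X ^ 3 - 30 * X + 56) := by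
      linear_combination (-3 * (12 * t - 12 * t * u + (12 * t - 1 + U * X)) -
        ((12 * t * u) ^ 2 + 12 * t * u * (1 - U * X) + (1 - U * X) ^ 2)) * hu' + X * U * P1 + P2
    have h2 := congrArg (quadraticChar (ZMod p)) h1
    rw [map_mul, map_mul, map_pow, quadraticChar_sq_one h12t, map_mul, map_mul, map_pow,
      quadraticChar_sq_one hU0, mul_one, mul_one] at h2
    exact h2
  have e2 : tr p t = -∑ X : ZMod p, quadraticChar (ZMod p)
      ((1 - (1 - U * X) * (12 * t)⁻¹) ^ 2 - 4 * t * ((1 - U * X) * (12 * t)⁻¹) ^ 3) := by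
    unfold tr
    congr 1
    symm
    refine Fintype.sum_equiv (((Equiv.mulLeft₀ U hU0).trans (Equiv.subLeft 1)).trans
      (Equiv.mulRight₀ _ (inv_ne_zero h12t))) _ _ fun u => ?_
    rw [Equiv.trans_apply, Equiv.trans_apply, Equiv.mulLeft₀_apply, Equiv.subLeft_apply,
      Equiv.mulRight₀_apply]
  have e3 : quadraticChar (ZMod p) 3 * tr p t =
      -(quadraticChar (ZMod p) U * ∑ X : ZMod p, quadraticChar (ZMod p) (X ^ 3 - 30 * X + 56)) := by
    rw [e2, mul_neg, mul_sum, mul_sum, sum_congr rfl fun X _ => e1 X]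
  have h1 := quadraticChar_sq_one n3
  have h2 := quadraticChar_sq_one hU0
  have e4 := congrArg (fun z : ℤ => z ^ 2) e3
  simp only [neg_sq, mul_pow] at e4
  rw [h1, h2, one_mul, one_mul] at e4
  exact e4

/-- **The split case**, in integral form. -/
theorem split_case (h3 : 3 < p) (hsq : legendreSym p (-2) = 1) (x y : ℤ)
    (hxy : (p : ℤ) = x ^ 2 + 2 * y ^ 2) :
    (p : ℤ) ^ 2 ∣ MS p - 8 ^ (p - 1) * (4 * x ^ 2 - 2 * p) := by
  have hpp := p_sq p
  have n2 : (2 : ZMod p) ≠ 0 := by exact_mod_cast ne_small p 2 1 0 h3 (by norm_num)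
  have n54 : (54 : ZMod p) ≠ 0 := by exact_mod_cast ne_small p 54 1 3 h3 (by norm_num)
  have n108 : (108 : ZMod p) ≠ 0 := by exact_mod_cast ne_small p 108 2 3 h3 (by norm_num)
  have n8 : (8 : ZMod p) ≠ 0 := by exact_mod_cast ne_small p 8 3 0 h3 (by norm_num)
  -- a square root of `-2`
  have h20 : ((-2 : ℤ) : ZMod p) ≠ 0 := by
    push_cast
    exact neg_ne_zero.mpr n2
  obtain ⟨s0, hs0⟩ := (legendreSym.eq_one_iff p h20).1 hsq
  have hs0' : s0 ^ 2 = ((-2 : ℤ) : ZMod p) := by rw [hs0]; ring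
  have hs0n : s0 ≠ 0 := by
    rintro rfl
    apply h20
    rw [← hs0']
    ring
  obtain ⟨s, hs, hsr⟩ := lift_sqrt p (by omega) (-2) s0 hs0' hs0n
  push_cast at hs
  have hu108 : IsUnit (108 : R p) := by
    apply isUnit_of_red
    rw [map_ofNat]
    exact n108
  obtain ⟨v, hv⟩ := hu108.exists_right_inv
  obtain ⟨T, hT⟩ : ∃ T : R p, 108 * T = 2 - 5 * s := ⟨v * (2 - 5 * s), by
    linear_combination (2 - 5 * s) * hv⟩
  -- Fermat quotients
  obtain ⟨e2, he2⟩ : ∃ e2 : ℤ, (2 : ℤ) ^ p = 2 + p * e2 := by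
    have : ((2 ^ p - 2 : ℤ) : ZMod p) = 0 := by
      push_cast
      rw [ZMod.pow_card, sub_self]
    obtain ⟨e, he⟩ := (ZMod.intCast_zmod_eq_zero_iff_dvd _ _).1 this
    exact ⟨e, by linear_combination he⟩
  obtain ⟨e3, he3⟩ : ∃ e3 : ℤ, (3 : ℤ) ^ p = 3 + p * e3 := by
    have : ((3 ^ p - 3 : ℤ) : ZMod p) = 0 := by
      push_cast
      rw [ZMod.pow_card, sub_self]
    obtain ⟨e, he⟩ := (ZMod.intCast_zmod_eq_zero_iff_dvd _ _).1 this
    exact ⟨e, by linear_combination he⟩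
  have hT2 : 108 * T = (s - 1) ^ 2 * (3 + (s - 1)) := by
    linear_combination hT - s * hs
  obtain ⟨q, hq, hcan⟩ := canon p h3 e2 e3 he2 he3 (gam_node p h3 e3 he3) (s - 1) T
    (by linear_combination hs) hT2
  have hsr2 : (red p s) ^ 2 = -2 := by
    rw [← map_pow, hs, map_neg, map_ofNat]
  have hTr : 108 * red p T = 2 - 5 * red p s := by
    have := congrArg (red p) hT
    rw [map_mul, map_sub, map_mul, map_ofNat, map_ofNat, map_ofNat] at this
    exact this
  have hT0 : red p T ≠ 0 := by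
    intro h
    rw [h] at hTr
    apply n54
    linear_combination (-(2 + 5 * red p s)) * hTr + 25 * hsr2
  have hT1 : 1 - 27 * red p T ≠ 0 := by
    intro h
    apply n54
    linear_combination (2 - 5 * red p s) * (4 * h + hTr) + 25 * hsr2
  have hkey := key p h3 T q hT0 hT1 hq hcan
  have htr := tr_eight p h3 (red p s) (red p T) hsr2 hTr
  have htr2 : (tr p (red p T)) ^ 2 = 4 * x ^ 2 := by
    rw [htr]
    rcases trace8 p (by omega) (by omega) x y hxy with h | h
    · rw [h]; ring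
    · rw [h]; ring
  have htr3 : ((tr p (red p T) : ℤ) : R p) ^ 2 = 4 * (x : R p) ^ 2 := by
    have := congrArg (Int.cast (R := R p)) htr2
    push_cast at this
    exact this
  rw [htr3] at hkey
  have hcl := clausen_eval p h3 (R p) T
  have h8 : 8 * (T * (1 - 27 * T)) = 1 := by
    have h1458 : IsUnit (54 : R p) := by
      apply isUnit_of_red
      rw [map_ofNat]
      exact n54
    apply h1458.mul_left_cancel
    linear_combination (4 - (108 * T + 2 - 5 * s)) * hT - 25 * hs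
  have hMS := MS_alg p (R p) (T * (1 - 27 * T)) h8
  unfold FF at hkey
  rw [← hcl, hkey] at hMS
  have hfin : ((MS p - 8 ^ (p - 1) * (4 * x ^ 2 - 2 * p) : ℤ) : R p) = 0 := by
    push_cast
    rw [hMS]
    ring
  have := (ZMod.intCast_zmod_eq_zero_iff_dvd _ _).1 hfin
  push_cast at this
  exact this

end Pool.Agent.T9h95.S3
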