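import Pool.Agent.T9h95.S3.Quad
import Pool.Agent.T9h95.S3.Split

set_option autoImplicit false

/-!
# The inert case
-/

namespace Pool.Agent.T9h95.S3

open Finset Polynomial Pool.Agent.Q267.CDE Pool.Agent.Q267.MW

variable (p : ℕ) [hp : Fact p.Prime]

section K

variable {K : Type*} [Field K] [Algebra (ZMod p) K]

theorem ne_small_K (n a b : ℕ) (h3 : 3 < p) (hn : n = 2 ^ a * 3 ^ b) : ((n : ℕ) : K) ≠ 0 := by
  have h := ne_small p n a b h3 hn
  intro h0
  apply h
  apply (algebraMap (ZMod p) K).injective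
  rw [map_natCast, map_zero, h0]

theorem aeval_SB (u : ℕ → ZMod p) (x t : K) (ht : 108 * t = x ^ 2 * (3 + x)) (h3 : 3 < p) :
    aeval x (SB p u 0) = ∑ k ∈ range p, algebraMap (ZMod p) K (u k) * t ^ k := by
  have h108 : (108 : K) ≠ 0 := by exact_mod_cast ne_small_K p 108 2 3 h3 (by norm_num)
  have h108' : (108 : ZMod p) ≠ 0 := by exact_mod_cast ne_small p 108 2 3 h3 (by norm_num)
  have e : aeval x (PB p) = t := by
    unfold PB
    simp only [map_mul, aeval_C, aeval_X, map_pow, map_add, map_ofNat]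
    apply mul_left_cancel₀ h108
    have := congrArg (algebraMap (ZMod p) K) (mul_inv_cancel₀ h108')
    rw [map_mul, map_ofNat, map_one] at this
    linear_combination x ^ 2 * (3 + x) * this - ht
  unfold SB S
  rw [map_sum]
  refine sum_congr rfl fun k _ => ?_
  rw [map_mul, map_mul, map_pow, e, aeval_C, pow_zero, mul_one, one_pow, map_one, mul_one]

theorem aeval_SA (E : ℕ) (u : ℕ → ZMod p) (hu : ∀ k, k < p → E < 3 * k → u k = 0) (x t : K)
    (ht : 54 * t * (1 + x) ^ 3 = x * (3 + x) ^ 2) (h3 : 3 < p) :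
    aeval x (SA p E u 0) = (1 + x) ^ E * ∑ k ∈ range p, algebraMap (ZMod p) K (u k) * t ^ k := by
  have h54 : (54 : K) ≠ 0 := by exact_mod_cast ne_small_K p 54 1 3 h3 (by norm_num)
  have h54' : (54 : ZMod p) ≠ 0 := by exact_mod_cast ne_small p 54 1 3 h3 (by norm_num)
  have e : aeval x (PA p) = t * (1 + x) ^ 3 := by
    unfold PA
    simp only [map_mul, aeval_C, aeval_X, map_pow, map_add, map_ofNat]
    apply mul_left_cancel₀ h54
    have := congrArg (algebraMap (ZMod p) K) (mul_inv_cancel₀ h54')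
    rw [map_mul, map_ofNat, map_one] at this
    linear_combination x * (3 + x) ^ 2 * this - ht
  unfold SA S
  rw [map_sum, mul_sum]
  refine sum_congr rfl fun k hk => ?_
  have hk' : k < p := mem_range.mp hk
  by_cases hE : E < 3 * k
  · rw [hu k hk' hE]
    simp
  rw [map_mul, map_mul, map_pow, map_pow, e, aeval_C, map_add, map_one, aeval_X, pow_zero,
    mul_one, mul_pow, ← pow_mul]
  rw [show (1 + x) ^ E = (1 + x) ^ (E - 3 * k) * (1 + x) ^ (3 * k) by
    rw [← pow_add]; congr 1; omega]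
  ring

/-- **The quadratic transformation at a point of an extension.** -/
theorem trans2_at (h3 : 3 < p) (x t t' : K) (ht : 108 * t = x ^ 2 * (3 + x))
    (ht' : 54 * t' * (1 + x) ^ 3 = x * (3 + x) ^ 2) :
    (1 + x) ^ (p - 1) * ∑ k ∈ range p, ((c k : ℕ) : K) * t' ^ k =
      ∑ k ∈ range p, ((c k : ℕ) : K) * t ^ k := by
  have h := congrArg (aeval x) (trans2 p h3)
  rw [aeval_SA p (p - 1) (cK p) (fun k hk h => cK_supp p k hk h) x t' ht' h3,
    aeval_SB p (cK p) x t ht h3] at h
  unfold cK at h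
  simp only [map_natCast] at h
  exact h

end K

/-- **The inert case**, in integral form. -/
theorem inert_case (h3 : 3 < p) (hsq : legendreSym p (-2) = -1) : (p : ℤ) ^ 2 ∣ MS p := by
  have hpp := p_sq p
  have h20 : ∀ r : ZMod p, r ^ 2 ≠ ((-2 : ℤ) : ZMod p) := by
    intro r hr
    rw [legendreSym.eq_neg_one_iff] at hsq
    exact hsq ⟨r, by rw [← hr]; ring⟩
  obtain ⟨A, _, _, K, _, _, rh, s, hs, hinj, hker⟩ := quad_ext p (-2) h20
  push_cast at hs
  have hpA : ((p : ℕ) : A) ^ 2 = 0 := by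
    have := congrArg (algebraMap (R p) A) hpp
    rw [map_pow, map_natCast, map_zero] at this
    exact this
  have n108 : (108 : ZMod p) ≠ 0 := by exact_mod_cast ne_small p 108 2 3 h3 (by norm_num)
  have hu108 : IsUnit (108 : R p) := by
    apply isUnit_of_red
    rw [map_ofNat]
    exact n108
  obtain ⟨v, hv⟩ := hu108.exists_right_inv
  have hvA : (108 : A) * algebraMap (R p) A v = 1 := by
    have := congrArg (algebraMap (R p) A) hv
    rw [map_mul, map_ofNat, map_one] at this
    exact this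
  obtain ⟨T, hT⟩ : ∃ T : A, 108 * T = 2 - 5 * s := ⟨algebraMap (R p) A v * (2 - 5 * s), by
    linear_combination (2 - 5 * s) * hvA⟩
  have hTr : 108 * rh T = 2 - 5 * rh s := by
    have := congrArg rh hT
    rw [map_mul, map_sub, map_mul, map_ofNat, map_ofNat, map_ofNat] at this
    exact this
  have hsr : (rh s) ^ 2 = -2 := by
    rw [← map_pow, hs, map_neg, map_ofNat]
  have n2 : (2 : K) ≠ 0 := by exact_mod_cast ne_small_K p 2 1 0 h3 (by norm_num)
  have htr := trans2_at p h3 (rh s - 1) (rh T) (rh T)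
    (by linear_combination hTr - rh s * hsr)
    (by
      apply mul_left_cancel₀ n2
      linear_combination (rh s) ^ 3 * hTr + (2 * rh s - 5 * ((rh s) ^ 2 - 2) - 2 * (rh s + 3)) * hsr)
  have hpow : (1 + (rh s - 1)) ^ (p - 1) = (-1 : K) := by
    have e : 1 + (rh s - 1) = rh s := by ring
    obtain ⟨m, hm⟩ : ∃ m, p - 1 = 2 * m ∧ p / 2 = m := by
      have := hp.out.odd_of_ne_two (by omega)
      obtain ⟨m, hm⟩ := this
      exact ⟨m, by omega, by omega⟩
    rw [e, hm.1, pow_mul, hsr]
    have h1 := legendreSym.eq_pow p (-2)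
    rw [hsq, hm.2] at h1
    push_cast at h1
    have h2 := congrArg (algebraMap (ZMod p) K) h1
    rw [map_neg, map_one, map_pow, map_neg, map_ofNat] at h2
    exact h2.symm
  rw [hpow] at htr
  have hF0 : rh (∑ k ∈ range p, ((c k : ℕ) : A) * T ^ k) = 0 := by
    rw [map_sum]
    have : ∀ k ∈ range p, rh (((c k : ℕ) : A) * T ^ k) = ((c k : ℕ) : K) * (rh T) ^ k := by
      intro k _
      rw [map_mul, map_natCast, map_pow]
    rw [sum_congr rfl this]
    apply (mul_eq_zero.mp _).resolve_left n2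
    linear_combination -htr
  obtain ⟨y, hy⟩ := hker _ hF0
  have hcl := clausen_eval p h3 A T
  rw [hy, mul_pow, hpA, zero_mul] at hcl
  have n2A : ∃ w : A, 54 * w = 1 := by
    have n54 : (54 : ZMod p) ≠ 0 := by exact_mod_cast ne_small p 54 1 3 h3 (by norm_num)
    have hu54 : IsUnit (54 : R p) := by
      apply isUnit_of_red
      rw [map_ofNat]
      exact n54
    obtain ⟨w, hw⟩ := hu54.exists_right_inv
    refine ⟨algebraMap (R p) A w, ?_⟩
    have := congrArg (algebraMap (R p) A) hw
    rw [map_mul, map_ofNat, map_one] at this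
    exact this
  have h8 : 8 * (T * (1 - 27 * T)) = 1 := by
    obtain ⟨w, hw⟩ := n2A
    have hu : IsUnit (54 : A) := IsUnit.of_mul_eq_one _ hw
    apply hu.mul_left_cancel
    linear_combination (4 - (108 * T + 2 - 5 * s)) * hT - 25 * hs
  have hMS := MS_alg p A (T * (1 - 27 * T)) h8
  rw [← hcl, mul_zero] at hMS
  have h0 : ((MS p : ℤ) : R p) = 0 := by
    apply hinj
    rw [map_intCast, map_zero, hMS]
  have := (ZMod.intCast_zmod_eq_zero_iff_dvd _ _).1 h0
  push_cast at this
  exact this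

end Pool.Agent.T9h95.S3
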