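import Pool.Agent.T9h95.S3.LogZero
import Pool.Agent.Q261.E8.HM

set_option autoImplicit false

/-!
# The point of discriminant `-8` is canonical modulo `p²`
-/

namespace Pool.Agent.T9h95.S3

open Finset Polynomial Pool.Agent.Q267.CDE Pool.Agent.Q267.MW

variable (p : ℕ) [hp : Fact p.Prime]

theorem unit_pow (x : R p) (hx : red p x ≠ 0) : ∃ q : R p, x ^ p = x * (1 + p * q) := by
  have hu := isUnit_of_red p hx
  obtain ⟨z, hz⟩ := red_eq_of p (x ^ p) x (by rw [map_pow, ZMod.pow_card])
  obtain ⟨v, hv⟩ := hu.exists_right_inv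
  refine ⟨z * v, ?_⟩
  rw [hz]
  linear_combination (-(p : R p) * z) * hv

/-- `W` in the ring `ℤ/p²` -/
theorem W_spec_R (a : ℕ) (x : R p) : ∃ v : R p, ((a : R p) + x) ^ p = a + x ^ p + p * v ∧
    red p v = (w p a).eval (red p x) := by
  refine ⟨aeval x (Wz p a), ?_, ?_⟩
  · have h := congrArg (aeval x) (Wz_spec p a)
    simp only [map_pow, map_add, map_mul, aeval_C, aeval_X] at h
    simp only [algebraMap_int_eq, eq_intCast, Int.cast_natCast] at h
    exact h
  · unfold w
    rw [eval_map, aeval_def, hom_eval₂]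
    congr 1
    exact RingHom.ext_int _ _

theorem canon (h3 : 3 < p) (e2 e3 : ℤ) (he2 : (2 : ℤ) ^ p = 2 + p * e2)
    (he3 : (3 : ℤ) ^ p = 3 + p * e3)
    (hg : ∑ k ∈ range p, gam p k * ((27 : ZMod p)⁻¹) ^ k =
      (e3 : ZMod p) * ∑ k ∈ range p, cK p k * ((27 : ZMod p)⁻¹) ^ k)
    (x T : R p) (hx : (1 + x) ^ 2 = -2) (hT : 108 * T = x ^ 2 * (3 + x)) :
    ∃ q : R p, T ^ p = T * (1 + p * q) ∧
      red p q * ∑ k ∈ range p, cK p k * (red p T) ^ k + ∑ k ∈ range p, gam p k * (red p T) ^ k = 0 := by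
  have hodd : Odd p := hp.out.odd_of_ne_two (by omega)
  have hpp := p_sq p
  have n3 : (3 : ZMod p) ≠ 0 := by exact_mod_cast ne_small p 3 0 1 h3 (by norm_num)
  have n2 : (2 : ZMod p) ≠ 0 := by exact_mod_cast ne_small p 2 1 0 h3 (by norm_num)
  have n108 : (108 : ZMod p) ≠ 0 := by exact_mod_cast ne_small p 108 2 3 h3 (by norm_num)
  -- reduction
  have hx0 : (1 + red p x) ^ 2 = -2 := by
    have := congrArg (red p) hx
    rw [map_pow, map_add, map_one, map_neg, map_ofNat] at this
    exact this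
  have hT0 : 108 * red p T = (red p x) ^ 2 * (3 + red p x) := by
    have := congrArg (red p) hT
    rw [map_mul, map_mul, map_pow, map_add, map_ofNat, map_ofNat] at this
    exact this
  have r1 : red p x ≠ 0 := by
    intro h
    rw [h] at hx0
    apply n3
    linear_combination hx0
  have r2 : red p (1 + x) ≠ 0 := by
    intro h
    rw [map_add, map_one] at h
    rw [h] at hx0
    apply n2
    linear_combination hx0
  have r3 : red p x - 1 ≠ 0 := by
    intro h
    have h' : red p x = 1 := by linear_combination h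
    rw [h'] at hx0
    have n6 : (6 : ZMod p) ≠ 0 := by exact_mod_cast ne_small p 6 1 1 h3 (by norm_num)
    apply n6
    linear_combination hx0
  obtain ⟨ξ, hξ⟩ := unit_pow p x r1
  obtain ⟨η, hη⟩ := unit_pow p (1 + x) r2
  have h3x : 3 + x = -(x * (1 + x)) := by linear_combination hx
  have hζ : (3 + x) ^ p = (3 + x) * ((1 + p * ξ) * (1 + p * η)) := by
    rw [h3x, hodd.neg_pow, mul_pow, hξ, hη]
    ring
  -- the values of W
  obtain ⟨v1, hv1, hv1'⟩ := W_spec_R p 1 x
  obtain ⟨v3, hv3, hv3'⟩ := W_spec_R p 3 x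
  push_cast at hv1 hv3
  rw [hη, hξ] at hv1
  rw [hζ, hξ] at hv3
  have w1 := Pool.Agent.Q261.E8.red_of_p_mul p v1 (η * (1 + x) - ξ * x) (by
    linear_combination -hv1)
  have w3 := Pool.Agent.Q261.E8.red_of_p_mul p v3 ((ξ + η) * (3 + x) - ξ * x) (by
    linear_combination -hv3 + (3 + x) * ξ * η * hpp)
  rw [hv1'] at w1
  rw [hv3'] at w3
  simp only [map_sub, map_mul, map_add, map_one, map_ofNat] at w1 w3
  -- the Fermat quotient of 2
  have he2R : (2 : R p) ^ p = 2 + p * e2 := by
    have := congrArg (Int.cast (R := R p)) he2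
    push_cast at this
    exact this
  have he3R : (3 : R p) ^ p = 3 + p * e3 := by
    have := congrArg (Int.cast (R := R p)) he3
    push_cast at this
    exact this
  have h4η := Pool.Agent.Q261.E8.red_of_p_mul p (4 * η) (e2 : R p) (by
    have h1 : ((1 + x) ^ 2) ^ p = ((1 + x) * (1 + p * η)) ^ 2 := by
      rw [← pow_mul, mul_comm, pow_mul, hη]
    rw [hx, hodd.neg_pow, he2R] at h1
    linear_combination h1 + (1 + (p : R p) * η) ^ 2 * hx - 2 * η ^ 2 * hpp)
  rw [map_mul, map_ofNat, red_int] at h4η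
  refine ⟨3 * ξ + η - e2 - e3, ?_, ?_⟩
  · -- the power of `T`
    have hu : IsUnit ((108 : R p) ^ p) := by
      apply IsUnit.pow
      apply isUnit_of_red
      rw [map_ofNat]
      exact n108
    apply hu.mul_left_cancel
    have e108 : (108 : R p) ^ p = 108 * (1 + p * e2) * (1 + p * e3) := by
      have : (108 : R p) ^ p = ((2 : R p) ^ p) ^ 2 * ((3 : R p) ^ p) ^ 3 := by
        rw [← pow_mul, ← pow_mul, mul_comm p 2, mul_comm p 3, pow_mul, pow_mul, ← mul_pow]
        norm_num
      rw [this, he2R, he3R]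
      have a1 : ((2 : R p) + p * e2) ^ 2 = 4 * (1 + p * e2) := by
        linear_combination (e2 : R p) ^ 2 * hpp
      have a2 : ((3 : R p) + p * e3) ^ 3 = 27 * (1 + p * e3) := by
        linear_combination (9 * (e3 : R p) ^ 2 + p * (e3 : R p) ^ 3) * hpp
      rw [a1, a2]
      ring
    have e1 : (108 : R p) ^ p * T ^ p = 108 * T * ((1 + p * ξ) ^ 3 * (1 + p * η)) := by
      rw [← mul_pow, hT, mul_pow, ← pow_mul, mul_comm 2 p, pow_mul, hξ, hζ]
      ring
    rw [e1, e108]
    have b1 : ((1 : R p) + p * ξ) ^ 3 * (1 + p * η) = 1 + p * (3 * ξ + η) := by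
      linear_combination (3 * ξ ^ 2 + (p : R p) * ξ ^ 3 + 3 * ξ * η + 3 * (p : R p) * ξ ^ 2 * η +
        (p : R p) ^ 2 * ξ ^ 3 * η) * hpp
    have b2 : ((1 : R p) + p * e2) * (1 + p * e3) * (1 + p * (3 * ξ + η - e2 - e3)) =
        1 + p * (3 * ξ + η) := by
      linear_combination ((e2 : R p) * e3 + (e2 + e3) * (3 * ξ + η - e2 - e3) +
        (p : R p) * e2 * e3 * (3 * ξ + η - e2 - e3)) * hpp
    rw [b1]
    linear_combination (-108 * T) * b2
  · -- the relation
    have hD := congrArg (eval (red p x)) (DD_zero p h3 e2 e3 he2 he3 hg)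
    have ht : 54 * red p T * (1 + red p x) ^ 3 = red p x * (3 + red p x) ^ 2 := by
      linear_combination (54 * red p T * (1 + red p x) - red p x * (3 + red p x)) * hx0 -
        (1 + red p x) * hT0
    have ht2 : (108 : ZMod p)⁻¹ * (red p x) ^ 2 * (3 + red p x) = red p T := by
      apply mul_left_cancel₀ n108
      have := mul_inv_cancel₀ n108
      linear_combination (red p x ^ 2 * (3 + red p x)) * this - hT0
    have n1x : 1 + red p x ≠ 0 := by
      rw [map_add, map_one] at r2
      exact r2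
    rw [DD_eval, eval_SA p (2 * p - 1) (gam p) (fun k hk h => gam_supp p k hk h) (red p x) _
      ht h3, eval_SB, eval_SB, ht2, two_pow_E p h3 _ n1x, w1, w3, eval_zero] at hD
    simp only [map_sub, map_add, map_mul, map_ofNat, red_int]
    set g := ∑ k ∈ range p, gam p k * (red p T) ^ k
    set h := ∑ k ∈ range p, cK p k * (red p T) ^ k
    set a := red p x
    set b := red p ξ
    set d := red p η
    apply mul_left_cancel₀ (mul_ne_zero (ne_small p 4 2 0 h3 (by norm_num)) r3)
    push_cast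
    rw [mul_zero]
    have hx1 : a ^ 2 + 2 * a + 3 = 0 := by linear_combination hx0
    linear_combination hD + (-2 * g - 6 * b * h + 6 * d * h + 2 * (e3 : ZMod p) * h) * hx1 -
      (a ^ 2 + a + 4) * h * h4η

end Pool.Agent.T9h95.S3
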