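import Pool.Agent.T9h95.S3.Coef
import Pool.Agent.R443.CL1

set_option autoImplicit false

/-!
# Clausen's identity modulo `p²` for `C(2k,k) C(3k,k)`
-/

namespace Pool.Agent.T9h95.S3

open Finset Polynomial Pool.Agent.Q267.CDE Pool.Agent.R443

variable (p : ℕ) [hp : Fact p.Prime]

/-- the index `(p² - 1)/3` -/
theorem exists_n (h3 : 3 < p) : ∃ n : ℕ, 3 * n + 1 = p ^ 2 ∧ p ≤ n := by
  have hm : p % 3 = 1 ∨ p % 3 = 2 := by
    have h : ¬ 3 ∣ p := by
      intro h
      rcases (Nat.dvd_prime hp.out).1 h with h5 | h5 <;> omega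
    omega
  have h1 : p ^ 2 % 3 = 1 := by
    rw [pow_two, Nat.mul_mod]
    rcases hm with h | h <;> rw [h]
  refine ⟨p ^ 2 / 3, by omega, ?_⟩
  rw [Nat.le_div_iff_mul_le (by norm_num), pow_two]
  have : 5 ≤ p := by
    by_contra h
    have h4 : p = 4 := by omega
    have := hp.out
    rw [h4] at this
    norm_num at this
  nlinarith

/-- the coefficients of the polynomial of degree `(p²-1)/3` -/
theorem d_eq (n : ℕ) (hn : 3 * n + 1 = p ^ 2) (k : ℕ) (hk : k < p) :
    ((CL.e n k * CL.b k : ℤ) : R p) * (-27) ^ k = ((c k : ℕ) : R p) := by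
  have hn' : 3 * (n : R p) = -1 := by
    have := congrArg (Nat.cast (R := R p)) hn
    push_cast at this
    rw [p_sq] at this
    linear_combination this
  induction k with
  | zero => simp [CL.e, CL.b, c_zero]
  | succ k ih =>
    have ih := ih (by omega)
    have h1 := congrArg (Int.cast (R := R p)) (CL.c_succ n k)
    have h2 := congrArg (Nat.cast (R := R p)) (c_succ k)
    push_cast at h1 h2 ih ⊢
    have hu : IsUnit (((k : R p) + 1) ^ 2) := by
      apply IsUnit.pow
      have := isUnit_nat p (k + 1) (by omega) hk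
      push_cast at this
      exact this
    apply hu.mul_left_cancel
    rw [pow_succ (-27 : R p) k]
    linear_combination (-27 * (-27) ^ k) * h1 - h2 + (-27 * ((n : R p) - k) * (n + k + 1)) * ih +
      (c k : R p) * (-3) * (3 * n + 2) * hn'

/-- the truncated series -/
noncomputable def Fp : (R p)[X] := ∑ k ∈ range p, C ((c k : ℕ) : R p) * X ^ k

/-- the other side of Clausen's identity -/
noncomputable def Qp : (R p)[X] :=
  ∑ k ∈ range p, C ((((2 * k).choose k * c k : ℕ)) : R p) * (X * (1 - 27 * X)) ^ k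

theorem choose_mul_c_zero (k : ℕ) (h1 : p ≤ 2 * k) (h2 : k < p) :
    ((((2 * k).choose k * c k : ℕ)) : R p) = 0 := by
  have hd : p ∣ (2 * k).choose k := by
    have h := Nat.choose_mul_factorial_mul_factorial (n := 2 * k) (k := k) (by omega)
    have h3 : p ∣ (2 * k).factorial := hp.out.dvd_factorial.2 h1
    rw [← h] at h3
    rcases hp.out.dvd_mul.1 h3 with h4 | h4
    · rcases hp.out.dvd_mul.1 h4 with h5 | h5
      · exact h5
      · rw [hp.out.dvd_factorial] at h5
        omega
    · rw [hp.out.dvd_factorial] at h4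
      omega
  have h3 : p ^ 2 ∣ (2 * k).choose k * c k := by
    rw [pow_two]
    exact mul_dvd_mul hd (p_dvd_c hp.out k (by omega) h2)
  exact (ZMod.natCast_eq_zero_iff _ _).2 h3

omit hp in
theorem X_pow_dvd_tail (n : ℕ) (hn : p ≤ n) (f : ℕ → (R p)[X]) (h : ∀ k, p ≤ k → X ^ p ∣ f k) :
    X ^ p ∣ (∑ k ∈ range (n + 1), f k) - ∑ k ∈ range p, f k := by
  obtain ⟨m, hm⟩ : ∃ m, n + 1 = p + m := ⟨n + 1 - p, by omega⟩
  rw [hm, sum_range_add, add_sub_cancel_left]
  exact dvd_sum fun i _ => h _ (by omega)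

theorem clausen_mod (h3 : 3 < p) : Fp p ^ 2 = Qp p := by
  obtain ⟨n, hn, hpn⟩ := exists_n p h3
  -- the exact identity, transported
  obtain ⟨φ, hX⟩ : ∃ φ : ℤ[X] →+* (R p)[X], φ X = -27 * X :=
    ⟨eval₂RingHom (Int.castRingHom (R p)[X]) (-27 * X), by simp⟩
  have h := congrArg φ (CL.clausen_poly n)
  unfold CL.D CL.W CL.t at h
  simp only [map_pow, map_sum, map_mul, map_add, hX, eq_intCast, map_intCast] at h
  have hC : ∀ z : ℤ, ((z : ℤ) : (R p)[X]) = C ((z : ℤ) : R p) := fun z => by
    rw [map_intCast]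
  have a1 : X ^ p ∣ (∑ k ∈ range (n + 1), C (((CL.e n k * CL.b k : ℤ)) : R p) * (-27 * X) ^ k) -
      Fp p := by
    have := X_pow_dvd_tail p n hpn
      (fun k => C (((CL.e n k * CL.b k : ℤ)) : R p) * (-27 * X) ^ k) (fun k hk => by
        rw [mul_pow]
        exact ((pow_dvd_pow X hk).mul_left _).mul_left _)
    have e : ∑ k ∈ range p, C (((CL.e n k * CL.b k : ℤ)) : R p) * (-27 * X) ^ k = Fp p := by
      unfold Fp
      refine sum_congr rfl fun k hk => ?_
      have hk' : k < p := mem_range.mp hk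
      rw [← d_eq p n hn k hk', C_mul, C_pow, C_neg, map_ofNat, mul_pow]
      ring
    rw [e] at this
    exact this
  have a2 : X ^ p ∣ (∑ k ∈ range (n + 1), C (((CL.e n k * CL.b k ^ 2 : ℤ)) : R p) *
      ((-27 * X) ^ 2 + -27 * X) ^ k) - Qp p := by
    have := X_pow_dvd_tail p n hpn
      (fun k => C (((CL.e n k * CL.b k ^ 2 : ℤ)) : R p) * ((-27 * X) ^ 2 + -27 * X) ^ k)
      (fun k hk => by
        rw [show ((-27 * X) ^ 2 + -27 * X : (R p)[X]) = X * (-27 * (1 - 27 * X)) by ring, mul_pow]
        exact ((pow_dvd_pow X hk).mul_right _).mul_left _)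
    have e : ∑ k ∈ range p, C (((CL.e n k * CL.b k ^ 2 : ℤ)) : R p) *
        ((-27 * X) ^ 2 + -27 * X) ^ k = Qp p := by
      unfold Qp
      refine sum_congr rfl fun k hk => ?_
      have hk' : k < p := mem_range.mp hk
      have hb : ((CL.b k : ℤ) : R p) = (((2 * k).choose k : ℕ) : R p) := by
        unfold CL.b
        rw [Nat.centralBinom_eq_two_mul_choose]
        push_cast
        rfl
      have h5 := d_eq p n hn k hk'
      have h6 : (((CL.e n k * CL.b k ^ 2 : ℤ)) : R p) * (-27) ^ k =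
          ((((2 * k).choose k * c k : ℕ)) : R p) := by
        push_cast at h5 ⊢
        rw [← h5, hb]
        ring
      rw [← h6, C_mul, C_pow, C_neg, map_ofNat,
        show ((-27 * X) ^ 2 + -27 * X : (R p)[X]) = -27 * (X * (1 - 27 * X)) by ring, mul_pow]
      ring
    rw [e] at this
    exact this
  have hdiv : X ^ p ∣ Fp p ^ 2 - Qp p := by
    set S1 := ∑ k ∈ range (n + 1), C (((CL.e n k * CL.b k : ℤ)) : R p) * (-27 * X) ^ k
    set S2 := ∑ k ∈ range (n + 1), C (((CL.e n k * CL.b k ^ 2 : ℤ)) : R p) *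
      ((-27 * X) ^ 2 + -27 * X) ^ k
    have hS : S1 ^ 2 = S2 := by
      simp only [S1, S2, ← hC]
      push_cast
      exact h
    have : Fp p ^ 2 - Qp p = (S2 - Qp p) - (S1 - Fp p) * (S1 + Fp p) := by
      rw [← hS]; ring
    rw [this]
    exact dvd_sub a2 (a1.mul_right _)
  rw [← sub_eq_zero]
  ext N
  rw [coeff_zero]
  rcases Nat.lt_or_ge N p with hN | hN
  · exact (X_pow_dvd_iff.1 hdiv) N hN
  · rw [coeff_sub]
    have b1 : (Fp p ^ 2).coeff N = 0 := by
      have hsq : Fp p ^ 2 = Fp p * Fp p := by ring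
      rw [hsq]
      unfold Fp
      rw [sum_mul_sum, finsetSum_coeff]
      refine sum_eq_zero fun i hi => ?_
      rw [finsetSum_coeff]
      refine sum_eq_zero fun j hj => ?_
      have hi' : i < p := mem_range.mp hi
      have hj' : j < p := mem_range.mp hj
      rw [show C ((c i : ℕ) : R p) * X ^ i * (C ((c j : ℕ) : R p) * X ^ j) =
        C (((c i * c j : ℕ)) : R p) * X ^ (i + j) by push_cast; rw [C_mul, pow_add]; ring,
        coeff_C_mul, coeff_X_pow]
      by_cases hij : N = i + j
      · have : ((c i * c j : ℕ) : R p) = 0 :=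
          (ZMod.natCast_eq_zero_iff _ _).2 (p2_dvd_mul hp.out i j hi' hj' (by omega))
        rw [this, zero_mul]
      · rw [if_neg hij, mul_zero]
    have b2 : (Qp p).coeff N = 0 := by
      unfold Qp
      rw [finsetSum_coeff]
      refine sum_eq_zero fun k hk => ?_
      have hk' : k < p := mem_range.mp hk
      rcases Nat.lt_or_ge (2 * k) p with h5 | h5
      · apply coeff_eq_zero_of_natDegree_lt
        have hdeg : (X * (1 - 27 * X) : (R p)[X]).natDegree ≤ 2 := by compute_degree
        have := (natDegree_C_mul_le ((((2 * k).choose k * c k : ℕ)) : R p)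
          ((X * (1 - 27 * X) : (R p)[X]) ^ k))
        have h6 := (natDegree_pow_le (p := (X * (1 - 27 * X) : (R p)[X])) (n := k))
        have h7 := Nat.mul_le_mul_left k hdeg
        omega
      · rw [choose_mul_c_zero p k h5 hk', C_0, zero_mul, coeff_zero]
    rw [b1, b2, sub_zero]

/-- **Clausen's identity modulo `p²`.** -/
theorem clausen_eval (h3 : 3 < p) (A : Type*) [CommRing A] [Algebra (R p) A] (T : A) :
    (∑ k ∈ range p, ((c k : ℕ) : A) * T ^ k) ^ 2 =
      ∑ k ∈ range p, (((2 * k).choose k * c k : ℕ) : A) * (T * (1 - 27 * T)) ^ k := by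
  have h := congrArg (aeval T) (clausen_mod p h3)
  unfold Fp Qp at h
  simp only [map_pow, map_sum, map_mul, aeval_X, map_sub, map_one, map_ofNat,
    map_natCast] at h
  exact h

end Pool.Agent.T9h95.S3
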