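import Pool.Agent.Q267.MW.C3Bin

set_option autoImplicit false

/-!
# The coefficients `C(2k,k) C(3k,k)` and their logarithmic companions modulo `p`
-/

namespace Pool.Agent.T9h95.S3

open Finset Pool.Agent.Q267.CDE Pool.Agent.Q267.MW

/-- `C(2k,k) C(3k,k) = (3k)!/k!^3` -/
def c (k : ℕ) : ℕ := (2 * k).choose k * (3 * k).choose k

theorem c_zero : c 0 = 1 := rfl

theorem c_fact (k : ℕ) : c k * k.factorial ^ 3 = (3 * k).factorial := by
  have h1 := Nat.choose_mul_factorial_mul_factorial (n := 2 * k) (k := k) (by omega)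
  have h2 := Nat.choose_mul_factorial_mul_factorial (n := 3 * k) (k := k) (by omega)
  rw [show 2 * k - k = k by omega] at h1
  rw [show 3 * k - k = 2 * k by omega] at h2
  rw [← h2, ← h1]
  unfold c
  ring

theorem c_succ (k : ℕ) : (k + 1) ^ 2 * c (k + 1) = 3 * ((3 * k + 1) * (3 * k + 2)) * c k := by
  have h1 := c_fact k
  have h2 := c_fact (k + 1)
  rw [show 3 * (k + 1) = 3 * k + 2 + 1 by ring, Nat.factorial_succ, Nat.factorial_succ,
    Nat.factorial_succ, Nat.factorial_succ] at h2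
  have h3 : 0 < (k + 1) * k.factorial ^ 3 := by positivity
  apply Nat.eq_of_mul_eq_mul_right h3
  calc (k + 1) ^ 2 * c (k + 1) * ((k + 1) * k.factorial ^ 3) =
      c (k + 1) * ((k + 1) * k.factorial) ^ 3 := by ring
    _ = (3 * k + 2 + 1) * ((3 * k + 1 + 1) * ((3 * k + 1) * (3 * k).factorial)) := h2
    _ = 3 * ((3 * k + 1) * (3 * k + 2)) * c k * ((k + 1) * k.factorial ^ 3) := by
      rw [← h1]; ring

section dvd

variable {p : ℕ} (hp : p.Prime)

include hp

theorem cop_fact (k m : ℕ) (hk : k < p) : Nat.Coprime (p ^ m) (k.factorial ^ 3) := by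
  apply Nat.Coprime.pow
  rw [Nat.Prime.coprime_iff_not_dvd hp, hp.dvd_factorial]
  omega

theorem p_dvd_c (k : ℕ) (h1 : p ≤ 3 * k) (h2 : k < p) : p ∣ c k := by
  have h := cop_fact hp k 1 h2
  rw [pow_one] at h
  refine h.dvd_of_dvd_mul_right ?_
  rw [c_fact]
  exact hp.dvd_factorial.2 h1

theorem p2_dvd_c (k : ℕ) (h1 : 2 * p ≤ 3 * k) (h2 : k < p) : p ^ 2 ∣ c k := by
  have h := cop_fact hp k 2 h2
  refine h.dvd_of_dvd_mul_right ?_
  rw [c_fact]
  have h3 : p ∣ p.factorial := hp.dvd_factorial.2 le_rfl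
  have h4 : p.factorial * p.factorial ∣ (p + p).factorial :=
    Nat.factorial_mul_factorial_dvd_factorial_add p p
  have h5 : (p + p).factorial ∣ (3 * k).factorial := Nat.factorial_dvd_factorial (by omega)
  rw [pow_two]
  exact ((mul_dvd_mul h3 h3).trans h4).trans h5

theorem p2_dvd_mul (k l : ℕ) (hk : k < p) (hl : l < p) (h : p ≤ k + l) : p ^ 2 ∣ c k * c l := by
  by_cases h1 : 2 * p ≤ 3 * k
  · exact (p2_dvd_c hp k h1 hk).mul_right _
  · by_cases h2 : 2 * p ≤ 3 * l
    · exact (p2_dvd_c hp l h2 hl).mul_left _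
    · rw [pow_two]
      exact mul_dvd_mul (p_dvd_c hp k (by omega) hk) (p_dvd_c hp l (by omega) hl)

end dvd

variable (p : ℕ) [hp : Fact p.Prime]

/-- the logarithmic companion of the coefficients -/
noncomputable def gam (k : ℕ) : ZMod p :=
  if 3 * k < p then (c k : ZMod p) * (3 * (H (ZMod p) (3 * k) - H (ZMod p) k))
  else 3 * ((c k / p : ℕ) : ZMod p)

theorem gam_zero : gam p 0 = 0 := by
  unfold gam
  rw [if_pos (by have := hp.out.pos; omega), mul_zero, sub_self, mul_zero, mul_zero]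

theorem c_cast_zero (k : ℕ) (h1 : p ≤ 3 * k) (h2 : k < p) : ((c k : ℕ) : ZMod p) = 0 := by
  rw [ZMod.natCast_eq_zero_iff]
  exact p_dvd_c hp.out k h1 h2

theorem gam_big (k : ℕ) (h1 : 2 * p ≤ 3 * k) (h2 : k < p) : gam p k = 0 := by
  unfold gam
  rw [if_neg (by omega)]
  obtain ⟨d, hd⟩ := p2_dvd_c hp.out k h1 h2
  rw [hd, pow_two, mul_assoc, Nat.mul_div_cancel_left _ hp.out.pos]
  push_cast
  rw [ZMod.natCast_self]
  ring

/-- `p γ_k = 3 c_k` in the upper range -/
theorem p_gam (k : ℕ) (h1 : p ≤ 3 * k) (h2 : k < p) :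
    (p : R p) * lift p (gam p k) = 3 * ((c k : ℕ) : R p) := by
  obtain ⟨d, hd⟩ := p_dvd_c hp.out k h1 h2
  have e : (p : R p) * lift p (gam p k) = p * (3 * (d : R p)) := by
    apply p_mul_eq
    unfold gam
    rw [red_lift, if_neg (by omega), hd, Nat.mul_div_cancel_left _ hp.out.pos, map_mul, map_ofNat,
      red_nat]
  rw [e, hd]
  push_cast
  ring

theorem gam_succ (h3 : 3 < p) (k : ℕ) (hk : k + 1 < p) :
    ((k : ZMod p) + 1) ^ 2 * gam p (k + 1) + 2 * ((k : ZMod p) + 1) * ((c (k + 1) : ℕ) : ZMod p) =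
      3 * (9 * (k : ZMod p) ^ 2 + 9 * k + 2) * gam p k +
        27 * (2 * (k : ZMod p) + 1) * ((c k : ℕ) : ZMod p) := by
  have hc := c_succ k
  have hc' := congrArg (Nat.cast (R := ZMod p)) hc
  push_cast at hc'
  rcases Nat.lt_or_ge (3 * (k + 1)) p with h | h
  · -- both in the lower range
    unfold gam
    rw [if_pos h, if_pos (by omega)]
    rw [show 3 * (k + 1) = 3 * k + 1 + 1 + 1 by ring, H_succ, H_succ, H_succ, H_succ]
    have n1 := Pool.Agent.Q267.CDE.cast_ne p (k + 1) (by omega) hk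
    have n2 := Pool.Agent.Q267.CDE.cast_ne p (3 * k + 1) (by omega) (by omega)
    have n3 := Pool.Agent.Q267.CDE.cast_ne p (3 * k + 1 + 1) (by omega) (by omega)
    have n4 := Pool.Agent.Q267.CDE.cast_ne p (3 * k + 1 + 1 + 1) (by omega) (by omega)
    push_cast at n1 n2 n3 n4 ⊢
    set a := H (ZMod p) (3 * k)
    set b := H (ZMod p) k
    set C1 := ((c (k + 1) : ℕ) : ZMod p)
    set C0 := ((c k : ℕ) : ZMod p)
    set K := (k : ZMod p)
    have i1 : (K + 1) * (K + 1)⁻¹ = 1 := mul_inv_cancel₀ n1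
    have i2 : (3 * K + 1) * (3 * K + 1)⁻¹ = 1 := mul_inv_cancel₀ n2
    have i3 : (3 * K + 1 + 1) * (3 * K + 1 + 1)⁻¹ = 1 := mul_inv_cancel₀ n3
    have i4 : (3 * K + 1 + 1 + 1) * (3 * K + 1 + 1 + 1)⁻¹ = 1 := mul_inv_cancel₀ n4
    have i4' : (3 * K + 1 + 1 + 1)⁻¹ * 3 = (K + 1)⁻¹ := by
      have : (3 * K + 1 + 1 + 1)⁻¹ * 3 * (K + 1) = 1 := by linear_combination i4
      exact eq_inv_of_mul_eq_one_left this
    have e1 : (K + 1) ^ 2 * C1 * (3 * (3 * K + 1)⁻¹) = 9 * (3 * K + 2) * C0 := by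
      linear_combination (3 * (3 * K + 1)⁻¹) * hc' + 9 * (3 * K + 2) * C0 * i2
    have e2 : (K + 1) ^ 2 * C1 * (3 * (3 * K + 1 + 1)⁻¹) = 9 * (3 * K + 1) * C0 := by
      linear_combination (3 * (3 * K + 1 + 1)⁻¹) * hc' + 9 * (3 * K + 1) * C0 * i3
    linear_combination (3 * (a - b)) * hc' + e1 + e2 + (K + 1) ^ 2 * C1 * i4' +
      (-2 * (K + 1) * C1) * i1
  · have hc1 : ((c (k + 1) : ℕ) : ZMod p) = 0 := c_cast_zero p (k + 1) h hk
    obtain ⟨d, hd⟩ := p_dvd_c hp.out (k + 1) h hk
    have g1 : gam p (k + 1) = 3 * (d : ZMod p) := by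
      unfold gam
      rw [if_neg (by omega), hd, Nat.mul_div_cancel_left _ hp.out.pos]
    rw [hc1, g1]
    rcases Nat.lt_or_ge (3 * k) p with h' | h'
    · -- the crossing
      have hne : p ≠ 3 * (k + 1) := by
        intro he
        have : 3 ∣ p := ⟨k + 1, he⟩
        rcases (Nat.dvd_prime hp.out).1 this with h5 | h5 <;> omega
      have hcase : p = 3 * k + 1 ∨ p = 3 * k + 2 := by omega
      rcases hcase with h5 | h5
      · have hz : (3 * (k : ZMod p) + 1) = 0 := by
          have := congrArg (Nat.cast (R := ZMod p)) h5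
          rw [ZMod.natCast_self] at this
          push_cast at this
          exact this.symm
        have h6 : (k + 1) ^ 2 * d = 3 * (3 * k + 2) * c k := by
          apply Nat.eq_of_mul_eq_mul_left hp.out.pos
          calc p * ((k + 1) ^ 2 * d) = (k + 1) ^ 2 * (p * d) := by ring
            _ = (k + 1) ^ 2 * c (k + 1) := by rw [← hd]
            _ = 3 * ((3 * k + 1) * (3 * k + 2)) * c k := hc
            _ = 3 * (p * (3 * k + 2)) * c k := by rw [← h5]
            _ = p * (3 * (3 * k + 2) * c k) := by ring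
        have h6' := congrArg (Nat.cast (R := ZMod p)) h6
        push_cast at h6'
        linear_combination 3 * h6' + (-9 * ((c k : ℕ) : ZMod p) -
          3 * (3 * (k : ZMod p) + 2) * gam p k) * hz
      · have hz : (3 * (k : ZMod p) + 2) = 0 := by
          have := congrArg (Nat.cast (R := ZMod p)) h5
          rw [ZMod.natCast_self] at this
          push_cast at this
          exact this.symm
        have h6 : (k + 1) ^ 2 * d = 3 * (3 * k + 1) * c k := by
          apply Nat.eq_of_mul_eq_mul_left hp.out.pos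
          calc p * ((k + 1) ^ 2 * d) = (k + 1) ^ 2 * (p * d) := by ring
            _ = (k + 1) ^ 2 * c (k + 1) := by rw [← hd]
            _ = 3 * ((3 * k + 1) * (3 * k + 2)) * c k := hc
            _ = 3 * ((3 * k + 1) * p) * c k := by rw [← h5]
            _ = p * (3 * (3 * k + 1) * c k) := by ring
        have h6' := congrArg (Nat.cast (R := ZMod p)) h6
        push_cast at h6'
        linear_combination 3 * h6' + (-9 * ((c k : ℕ) : ZMod p) -
          3 * (3 * (k : ZMod p) + 1) * gam p k) * hz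
    · -- both in the upper range
      have hc0 : ((c k : ℕ) : ZMod p) = 0 := c_cast_zero p k h' (by omega)
      obtain ⟨e, he⟩ := p_dvd_c hp.out k h' (by omega)
      have g0 : gam p k = 3 * (e : ZMod p) := by
        unfold gam
        rw [if_neg (by omega), he, Nat.mul_div_cancel_left _ hp.out.pos]
      rw [hc0, g0]
      have h6 : (k + 1) ^ 2 * d = 3 * ((3 * k + 1) * (3 * k + 2)) * e := by
        apply Nat.eq_of_mul_eq_mul_left hp.out.pos
        calc p * ((k + 1) ^ 2 * d) = (k + 1) ^ 2 * (p * d) := by ring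
          _ = (k + 1) ^ 2 * c (k + 1) := by rw [← hd]
          _ = 3 * ((3 * k + 1) * (3 * k + 2)) * c k := hc
          _ = p * (3 * ((3 * k + 1) * (3 * k + 2)) * e) := by rw [he]; ring
      have h6' := congrArg (Nat.cast (R := ZMod p)) h6
      push_cast at h6'
      linear_combination 3 * h6'

end Pool.Agent.T9h95.S3
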