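import Pool.Agent.T9h95.S3.Uniq

set_option autoImplicit false

/-!
# The first order part of the Frobenius of `a + X`
-/

namespace Pool.Agent.T9h95.S3

open Finset Polynomial

variable (p : ℕ) [hp : Fact p.Prime]

/-- `((a + X)^p - a - X^p)/p` -/
noncomputable def Wz (a : ℕ) : ℤ[X] :=
  ∑ i ∈ range (p - 1), C (((p.choose (i + 1) / p : ℕ) : ℤ) * (a : ℤ) ^ (p - (i + 1))) * X ^ (i + 1) +
    C (((a : ℤ) ^ p - a) / p)

theorem fermat (a : ℤ) : (p : ℤ) ∣ a ^ p - a := by
  rw [← ZMod.intCast_zmod_eq_zero_iff_dvd]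
  push_cast
  rw [ZMod.pow_card, sub_self]

theorem Wz_spec (a : ℕ) : (C (a : ℤ) + X) ^ p = C (a : ℤ) + X ^ p + C (p : ℤ) * Wz p a := by
  have hp1 : p = (p - 1) + 1 := by have := hp.out.pos; omega
  have h := add_pow (X : ℤ[X]) (C (a : ℤ)) p
  rw [add_comm] at h
  rw [h]
  have e2 : ∑ m ∈ range (p + 1), (X : ℤ[X]) ^ m * C (a : ℤ) ^ (p - m) * (p.choose m : ℤ[X]) =
      ∑ m ∈ range (p - 1 + 1 + 1), (X : ℤ[X]) ^ m * C (a : ℤ) ^ (p - m) * (p.choose m : ℤ[X]) := by
    rw [← hp1]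
  rw [e2, sum_range_succ, sum_range_succ', ← hp1, Nat.choose_self, Nat.choose_zero_right]
  obtain ⟨d, hd⟩ := fermat p (a : ℤ)
  have hp0 : (p : ℤ) ≠ 0 := by exact_mod_cast hp.out.ne_zero
  have e3 : C (p : ℤ) * C (((a : ℤ) ^ p - a) / p) = C (a : ℤ) ^ p - C (a : ℤ) := by
    rw [hd, Int.mul_ediv_cancel_left _ hp0, ← C_mul, ← hd, C_sub, C_pow]
  unfold Wz
  rw [mul_add, e3, mul_sum]
  have e4 : ∑ i ∈ range (p - 1), (X : ℤ[X]) ^ (i + 1) * C (a : ℤ) ^ (p - (i + 1)) *
      (p.choose (i + 1) : ℤ[X]) = ∑ i ∈ range (p - 1), C (p : ℤ) *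
      (C (((p.choose (i + 1) / p : ℕ) : ℤ) * (a : ℤ) ^ (p - (i + 1))) * X ^ (i + 1)) := by
    refine sum_congr rfl fun i hi => ?_
    have hi' : i < p - 1 := mem_range.mp hi
    obtain ⟨e, he⟩ := hp.out.dvd_choose_self (k := i + 1) (by omega) (by omega)
    rw [he, Nat.mul_div_cancel_left _ hp.out.pos]
    simp only [C_mul, C_pow, map_natCast]
    push_cast
    ring
  rw [e4]
  simp
  ring

omit hp in
theorem Wz_deg (a : ℕ) : (Wz p a).natDegree ≤ p - 1 := by
  unfold Wz
  refine (natDegree_add_le _ _).trans (max_le ?_ ?_)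
  · refine natDegree_sum_le_of_forall_le _ _ fun i hi => ?_
    have hi' : i < p - 1 := mem_range.mp hi
    refine (natDegree_C_mul_le _ _).trans ?_
    rw [natDegree_X_pow]
    omega
  · rw [natDegree_C]
    omega

theorem Wz_der (a : ℕ) : derivative (Wz p a) = (C (a : ℤ) + X) ^ (p - 1) - X ^ (p - 1) := by
  have h := congrArg derivative (Wz_spec p a)
  simp only [derivative_pow, derivative_add, derivative_X, derivative_mul, mul_one, map_natCast,
    derivative_natCast] at h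
  have hp0 : (p : ℤ[X]) ≠ 0 := by exact_mod_cast hp.out.ne_zero
  apply mul_left_cancel₀ hp0
  rw [show (C (a : ℤ) : ℤ[X]) = (a : ℤ[X]) by simp]
  linear_combination -h

/-- the reduction modulo `p` -/
noncomputable def w (a : ℕ) : (ZMod p)[X] := (Wz p a).map (Int.castRingHom (ZMod p))

theorem w_deg (a : ℕ) : (w p a).natDegree ≤ p - 1 := natDegree_map_le.trans (Wz_deg p a)

theorem frobK (a : ℕ) : (C (a : ZMod p) + X) ^ p = C (a : ZMod p) + X ^ p := by
  have h := congrArg (Polynomial.map (Int.castRingHom (ZMod p))) (Wz_spec p a)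
  simp only [Polynomial.map_pow, Polynomial.map_add, Polynomial.map_C, Polynomial.map_X,
    Polynomial.map_mul] at h
  simp only [eq_intCast, Int.cast_natCast, ZMod.natCast_self, C_0, zero_mul, add_zero] at h
  exact h

theorem w_der (a : ℕ) : X * (C (a : ZMod p) + X) * derivative (w p a) =
    C (a : ZMod p) * (X - X ^ p) := by
  unfold w
  rw [derivative_map, Wz_der]
  simp only [Polynomial.map_pow, Polynomial.map_add, Polynomial.map_C, Polynomial.map_X,
    Polynomial.map_sub]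
  simp only [eq_intCast, Int.cast_natCast]
  have h1 := frobK p a
  obtain ⟨q, hq⟩ : ∃ q, p = q + 1 := ⟨p - 1, by have := hp.out.pos; omega⟩
  have e1 : (C (a : ZMod p) + X) ^ p = (C (a : ZMod p) + X) ^ (p - 1) * (C (a : ZMod p) + X) := by
    rw [← pow_succ]; congr 1; omega
  have e2 : (X : (ZMod p)[X]) ^ p = X ^ (p - 1) * X := by
    rw [← pow_succ]; congr 1; omega
  rw [e1] at h1
  rw [e2] at h1 ⊢
  linear_combination X * h1

/-- the values of `w` at integers -/
theorem w_eval (a : ℕ) (x v : ℤ) (h : ((a : ℤ) + x) ^ p - a - x ^ p = p * v) :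
    (w p a).eval (x : ZMod p) = (v : ZMod p) := by
  have h1 := congrArg (eval x) (Wz_spec p a)
  simp only [eval_pow, eval_add, eval_C, eval_X, eval_mul] at h1
  have hp0 : (p : ℤ) ≠ 0 := by exact_mod_cast hp.out.ne_zero
  have h2 : (Wz p a).eval x = v := by
    apply mul_left_cancel₀ hp0
    linear_combination h - h1
  unfold w
  rw [eval_map, eval₂_at_intCast]
  simp [h2]

end Pool.Agent.T9h95.S3
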