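import Pool.Agent.T9h95.S3.Coef
import Pool.Agent.Q267.MW.Char

set_option autoImplicit false

/-!
# Triple Jacobi sums modulo `p²`
-/

namespace Pool.Agent.T9h95.S3

open Finset Pool.Agent.Q267.CDE Pool.Agent.Q267.MW

variable (p : ℕ) [hp : Fact p.Prime]

/-- the triple Jacobi sums -/
noncomputable def JT (k : ℕ) : R p :=
  ∑ u : ZMod p, ∑ v : ZMod p, om p u ^ (p - 1 - k) * (om p v ^ (p - 1 - k) *
    om p (1 - u - v) ^ (p - 1 - k))

theorem om_ind (h3 : 3 < p) (x : ZMod p) : om p x ^ (p - 1) = 1 - if x = 0 then 1 else 0 := by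
  split_ifs with h
  · rw [h, om_zero, zero_pow (by omega), sub_self]
  · rw [om_pow_card p h, sub_zero]

theorem JT_zero (h3 : 3 < p) : JT p 0 = 3 - 3 * p := by
  have hpp := p_sq p
  unfold JT
  rw [Nat.sub_zero]
  have e1 : ∀ u : ZMod p, ∑ v : ZMod p, om p u ^ (p - 1) * (om p v ^ (p - 1) *
      om p (1 - u - v) ^ (p - 1)) = (p : R p) - 2 + (if u = 1 then 1 else 0) -
        (if u = 0 then ((p : R p) - 2) else 0) := by
    intro u
    rw [← mul_sum, om_ind p h3 u]
    have e2 : ∀ v : ZMod p, om p v ^ (p - 1) * om p (1 - u - v) ^ (p - 1) =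
        1 - (if v = 0 then 1 else 0) - (if v = 1 - u then 1 else 0) +
          (if v = 0 then (if u = 1 then 1 else 0) else 0) := by
      intro v
      rw [om_ind p h3, om_ind p h3]
      have h1 : (1 - u - v = 0) ↔ v = 1 - u := by
        constructor
        · intro h; linear_combination -h
        · intro h; rw [h]; ring
      by_cases hv : v = 0
      · subst hv
        by_cases hu : u = 1
        · simp [hu]
        · have h4 : ¬ (0 : ZMod p) = 1 - u := fun h => hu (by linear_combination h)
          simp [hu, h4]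
      · simp [hv, h1]
    rw [sum_congr rfl fun v _ => e2 v, sum_add_distrib, sum_sub_distrib, sum_sub_distrib,
      sum_ite_eq' univ (0 : ZMod p), sum_ite_eq' univ (1 - u), sum_ite_eq' univ (0 : ZMod p),
      if_pos (mem_univ _), if_pos (mem_univ _), if_pos (mem_univ _), sum_const, card_univ,
      ZMod.card, nsmul_one]
    by_cases hu : u = 0
    · subst hu
      have h01 : ¬ (0 : ZMod p) = 1 := zero_ne_one
      simp [h01]
    · simp only [hu, if_false]
      ring
  rw [sum_congr rfl fun u _ => e1 u, sum_sub_distrib, sum_add_distrib,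
    sum_ite_eq' univ (1 : ZMod p), sum_ite_eq' univ (0 : ZMod p), if_pos (mem_univ _),
    if_pos (mem_univ _), sum_const, card_univ, ZMod.card, nsmul_eq_mul]
  linear_combination hpp

/-- power sums with one relevant index -/
theorem S1 (a k n : ℕ) (hak : a + k = p - 1) (ha : 0 < a) (hn : a + n < 2 * (p - 1)) :
    ∑ u : ZMod p, om p u ^ a * (1 - om p u) ^ n =
      ((p : R p) - 1) * ((-1) ^ k * ((n.choose k : ℕ) : R p)) := by
  have h1 : ∀ t : ZMod p, om p t ^ a * (1 - om p t) ^ n =
      ∑ i ∈ range (n + 1), ((-1) ^ i * ((n.choose i : ℕ) : R p)) * om p t ^ (a + i) := by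
    intro t
    rw [show (1 : R p) - om p t = -om p t + 1 by ring, add_pow, mul_sum]
    refine sum_congr rfl fun i _ => ?_
    rw [one_pow, mul_one, neg_pow, pow_add]
    ring
  rw [sum_congr rfl fun t _ => h1 t, sum_comm]
  have h2 : ∀ i ∈ range (n + 1), ∑ t : ZMod p, ((-1) ^ i * ((n.choose i : ℕ) : R p)) *
      om p t ^ (a + i) = if i = k then ((p : R p) - 1) * ((-1) ^ k * ((n.choose k : ℕ) : R p)) else 0 := by
    intro i hi
    have hi' : i < n + 1 := mem_range.mp hi
    rw [← mul_sum, sum_om p _ (by omega)]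
    have := dvd_iff p a i k hak (by omega) (by omega)
    by_cases hik : i = k
    · rw [if_pos (this.2 hik), if_pos hik, hik]
      ring
    · rw [if_neg (fun h => hik (this.1 h)), if_neg hik, mul_zero]
  rw [sum_congr rfl h2, sum_ite_eq' (range (n + 1)) k]
  split_ifs with h
  · rfl
  · have : n < k := by
      rw [mem_range] at h
      omega
    rw [Nat.choose_eq_zero_of_lt this]
    simp

/-- two variable power sums -/
theorem MN (a k N : ℕ) (hak : a + k = p - 1) (ha : 0 < a) (hk : p - 1 < 3 * k)
    (hN : N + k ≤ 2 * (p - 1)) :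
    ∑ u : ZMod p, ∑ v : ZMod p, om p u ^ a * (om p v ^ a * (1 - om p u - om p v) ^ N) =
      ((p : R p) - 1) ^ 2 * (((N.choose k : ℕ) : R p) * (((N - k).choose k : ℕ) : R p)) := by
  have h1 : ∀ u : ZMod p, ∑ v : ZMod p, om p u ^ a * (om p v ^ a * (1 - om p u - om p v) ^ N) =
      ∑ i ∈ range (N + 1), ((-1) ^ i * ((N.choose i : ℕ) : R p) *
        ∑ v : ZMod p, om p v ^ (a + i)) * (om p u ^ a * (1 - om p u) ^ (N - i)) := by
    intro u
    have e : ∀ v : ZMod p, om p u ^ a * (om p v ^ a * (1 - om p u - om p v) ^ N) =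
        ∑ i ∈ range (N + 1), ((-1) ^ i * ((N.choose i : ℕ) : R p)) * om p v ^ (a + i) *
          (om p u ^ a * (1 - om p u) ^ (N - i)) := by
      intro v
      rw [show (1 : R p) - om p u - om p v = -om p v + (1 - om p u) by ring, add_pow, mul_sum,
        mul_sum]
      refine sum_congr rfl fun i _ => ?_
      rw [neg_pow, pow_add]
      ring
    rw [sum_congr rfl fun v _ => e v, sum_comm]
    refine sum_congr rfl fun i _ => ?_
    rw [mul_sum, sum_mul]
  rw [sum_congr rfl fun u _ => h1 u, sum_comm]
  have h2 : ∀ i ∈ range (N + 1), ∑ u : ZMod p, ((-1) ^ i * ((N.choose i : ℕ) : R p) *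
        ∑ v : ZMod p, om p v ^ (a + i)) * (om p u ^ a * (1 - om p u) ^ (N - i)) =
      if i = k then ((p : R p) - 1) ^ 2 * (((N.choose k : ℕ) : R p) *
        (((N - k).choose k : ℕ) : R p)) else 0 := by
    intro i hi
    have hi' : i < N + 1 := mem_range.mp hi
    rw [← mul_sum]
    by_cases hik : i = k
    · subst hik
      rw [if_pos rfl, sum_om p _ (by omega), if_pos (by rw [hak]),
        S1 p a i (N - i) hak ha (by omega)]
      have h3 : ((-1 : R p)) ^ i * (-1) ^ i = 1 := by rw [← mul_pow]; norm_num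
      linear_combination (((p : R p) - 1) ^ 2 * (((N.choose i : ℕ) : R p) *
        (((N - i).choose i : ℕ) : R p))) * h3
    · rw [if_neg hik]
      by_cases hd : (p - 1) ∣ (a + i)
      · obtain ⟨c, hc⟩ := hd
        have hc1 : 1 < c := by
          by_contra hcc
          have hc2 : c ≤ 1 := by omega
          rcases Nat.le_one_iff_eq_zero_or_eq_one.1 hc2 with h | h
          · subst h; omega
          · subst h; omega
        have hge : 2 * (p - 1) ≤ a + i := by
          rw [hc, mul_comm]
          exact Nat.mul_le_mul_left _ hc1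
        have hzero : ∑ u : ZMod p, om p u ^ a * (1 - om p u) ^ (N - i) = 0 := by
          rw [S1 p a k (N - i) hak ha (by omega), Nat.choose_eq_zero_of_lt (by omega)]
          simp
        rw [hzero, mul_zero]
      · rw [sum_om p _ (by omega), if_neg hd]
        ring
  rw [sum_congr rfl h2, sum_ite_eq' (range (N + 1)) k]
  split_ifs with h
  · rfl
  · have : N < k := by
      rw [mem_range] at h
      omega
    rw [Nat.choose_eq_zero_of_lt this]
    simp

/-- the triple Jacobi sums in the upper range -/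
theorem JT_upper (k : ℕ) (hk : p - 1 < 3 * k) (hk2 : k < p - 1) :
    JT p k = ((p - 1 - k : ℕ) : R p) * ((p : R p) - 1) ^ 2 *
      ((((2 * (p - 1) - k).choose k : ℕ) : R p) * (((2 * (p - 1) - k - k).choose k : ℕ) : R p)) := by
  obtain ⟨a, ha⟩ : ∃ a, a = p - 1 - k := ⟨_, rfl⟩
  obtain ⟨b, hb⟩ : ∃ b, a = b + 1 := ⟨a - 1, by omega⟩
  have hpp := p_sq p
  unfold JT
  rw [← ha]
  have e : ∀ u v : ZMod p, om p u ^ a * (om p v ^ a * om p (1 - u - v) ^ a) =
      (1 - (a : R p)) * (om p u ^ a * (om p v ^ a * (1 - om p u - om p v) ^ a)) +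
      (a : R p) * (om p u ^ a * (om p v ^ a * (1 - om p u - om p v) ^ (b + p))) := by
    intro u v
    have h1 : om p (1 - u - v) = (1 - om p u - om p v) ^ p :=
      om_eq p _ _ (by rw [map_sub, map_sub, map_one, red_om, red_om])
    obtain ⟨z, hz⟩ := red_eq_of p ((1 - om p u - om p v) ^ p) (1 - om p u - om p v) (by
      rw [map_pow, ZMod.pow_card])
    rw [h1, pow_add (1 - om p u - om p v) b p, hz, hb, nil_pow]
    push_cast
    ring
  rw [sum_congr rfl fun u _ => sum_congr rfl fun v _ => e u v]
  have M1 := MN p a k a (by omega) (by omega) hk (by omega)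
  have M2 := MN p a k (b + p) (by omega) (by omega) hk (by omega)
  simp only [← mul_sum] at M1 M2
  simp only [sum_add_distrib]
  simp only [← mul_sum]
  rw [M1, M2]
  rw [show (a - k).choose k = 0 from Nat.choose_eq_zero_of_lt (by omega),
    show b + p = 2 * (p - 1) - k by omega]
  push_cast
  ring

end Pool.Agent.T9h95.S3
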