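import Pool.Agent.T9h95.S3.JT
import Pool.Agent.Q267.MW.TrLeg

set_option autoImplicit false

/-!
# The values of the triple Jacobi sums modulo `p²`
-/

namespace Pool.Agent.T9h95.S3

open Finset Pool.Agent.Q267.CDE Pool.Agent.Q267.MW

variable (p : ℕ) [hp : Fact p.Prime]

theorem J_inv (hodd : Odd p) (k : ℕ) (h0 : 0 < k) (hk : k < p - 1) :
    ∑ u : ZMod p, om p u ^ (p - 1 - k) * om p (1 - u) ^ k = -(-1) ^ k := by
  rw [sum_inv]
  have e : ∀ t : ZMod p, om p t⁻¹ ^ (p - 1 - k) * om p (1 - t⁻¹) ^ k =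
      (-1) ^ k * (om p (1 - t) ^ k - if t = 0 then 1 else 0) := by
    intro t
    split_ifs with h
    · rw [h, inv_zero, om_zero, sub_zero, om_one, one_pow, zero_pow (by omega)]
      ring
    · have h1 : (1 - t⁻¹ : ZMod p) = (-1) * ((1 - t) * t⁻¹) := by
        field_simp
        ring
      have h3 : om p t⁻¹ ^ (p - 1 - k) * om p t⁻¹ ^ k = 1 := by
        rw [← pow_add, show p - 1 - k + k = p - 1 by omega]
        exact om_pow_card p (inv_ne_zero h)
      rw [h1, om_mul, om_mul, mul_pow, mul_pow, om_neg_one_pow p hodd]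
      linear_combination (-1) ^ k * om p (1 - t) ^ k * h3
  have hs : ∑ t : ZMod p, om p (1 - t) ^ k = 0 := by
    rw [← sum_om_lt p k h0 hk]
    exact Fintype.sum_equiv (Equiv.subLeft 1) _ _ fun t => rfl
  rw [sum_congr rfl fun t _ => e t, ← mul_sum, sum_sub_distrib, hs,
    sum_ite_eq' univ (0 : ZMod p), if_pos (mem_univ _)]
  ring

theorem JT_fact (hodd : Odd p) (k : ℕ) (h0 : 0 < k) (hk : 3 * k ≤ p - 1) :
    JT p k = (∑ y : ZMod p, om p y ^ (p - 1 - k) * om p (1 - y) ^ (p - 1 - k)) *
      ∑ u : ZMod p, om p u ^ (p - 1 - k) * om p (1 - u) ^ (p - 1 - 2 * k) := by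
  unfold JT
  rw [mul_sum]
  refine sum_congr rfl fun u _ => ?_
  rw [← mul_sum]
  have key : ∑ v : ZMod p, om p v ^ (p - 1 - k) * om p (1 - u - v) ^ (p - 1 - k) =
      (∑ y : ZMod p, om p y ^ (p - 1 - k) * om p (1 - y) ^ (p - 1 - k)) *
        om p (1 - u) ^ (p - 1 - 2 * k) := by
    by_cases hu : 1 - u = 0
    · rw [hu, om_zero, zero_pow (by omega), mul_zero]
      have e : ∀ v : ZMod p, om p v ^ (p - 1 - k) * om p (0 - v) ^ (p - 1 - k) =
          (-1) ^ (p - 1 - k) * om p v ^ ((p - 1 - k) + (p - 1 - k)) := by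
        intro v
        rw [zero_sub, om_neg p hodd, neg_pow, pow_add]
        ring
      rw [sum_congr rfl fun v _ => e v, ← mul_sum, sum_om p _ (by omega), if_neg, mul_zero]
      rintro ⟨c, hc⟩
      have hc1 : c < 2 := by
        by_contra h
        have : (p - 1) * 2 ≤ (p - 1) * c := Nat.mul_le_mul_left _ (by omega)
        omega
      have hc0 : 1 < c := by
        by_contra h
        have : (p - 1) * c ≤ (p - 1) * 1 := Nat.mul_le_mul_left _ (by omega)
        omega
      omega
    · rw [sum_mul]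
      refine (Fintype.sum_equiv (Equiv.mulLeft₀ _ hu) _ _ fun y => ?_).symm
      rw [Equiv.mulLeft₀_apply]
      have h1 : 1 - u - (1 - u) * y = (1 - u) * (1 - y) := by ring
      rw [h1, om_mul, om_mul, mul_pow, mul_pow]
      have h2 : om p (1 - u) ^ (p - 1 - k) * om p (1 - u) ^ (p - 1 - k) =
          om p (1 - u) ^ (p - 1 - 2 * k) := by
        rw [← pow_add, show p - 1 - k + (p - 1 - k) = (p - 1) + (p - 1 - 2 * k) by omega, pow_add,
          om_pow_card p hu, one_mul]
      rw [← h2]
      ring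
  rw [key]
  ring

theorem castN (N m : ℕ) (h : N + m = p - 1) : ((N : ℕ) : ZMod p) = -1 - m := by
  have h1 : N + m + 1 = p := by have := hp.out.one_le; omega
  have := congrArg (Nat.cast (R := ZMod p)) h1
  rw [ZMod.natCast_self] at this
  push_cast at this
  linear_combination this

/-- the triple Jacobi sums in the lower range -/
theorem JT_lower (hodd : Odd p) (k : ℕ) (h0 : 0 < k) (hk : 3 * k < p - 1) :
    JT p k = ((c k : ℕ) : R p) + p * lift p ((k : ZMod p) * gam p k) := by
  have hpp := p_sq p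
  rw [JT_fact p hodd k h0 hk.le]
  have r : ∀ j, j < p → H (ZMod p) (p - 1 - j) = H (ZMod p) j := fun j hj => H_refl p hodd j hj
  rw [jac p hodd k (p - 1 - k) h0 (by omega) (by omega)
      (lift p ((1 + 2 * (k : ZMod p)) * (H (ZMod p) (2 * k) - H (ZMod p) k))) (by
        rw [red_lift, r k (by omega), show p - 1 - k - k = p - 1 - 2 * k by omega,
          r (2 * k) (by omega), castN p (p - 1 - k) k (by omega)]
        ring),
    jac p hodd k (p - 1 - 2 * k) h0 (by omega) (by omega)
      (lift p (-(1 + 2 * (k : ZMod p)) * H (ZMod p) (2 * k) + (1 + 3 * (k : ZMod p)) *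
        H (ZMod p) (3 * k) - k * H (ZMod p) k)) (by
        rw [red_lift, r (2 * k) (by omega), show p - 1 - 2 * k - k = p - 1 - 3 * k by omega,
          r (3 * k) (by omega), castN p (p - 1 - 2 * k) (2 * k) (by omega)]
        push_cast
        ring),
    choose_neg p k k (by omega), choose_neg p (2 * k) k (by omega)]
  have hg : gam p k = (c k : ZMod p) * (3 * (H (ZMod p) (3 * k) - H (ZMod p) k)) := by
    unfold gam
    rw [if_pos (by omega)]
  have hcc : ((c k : ℕ) : R p) = (((2 * k).choose k : ℕ) : R p) * (((3 * k).choose k : ℕ) : R p) := by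
    unfold c
    push_cast
    ring
  rw [show k + k = 2 * k by ring, show 2 * k + k = 3 * k by ring]
  set h1 := lift p ((1 + 2 * (k : ZMod p)) * (H (ZMod p) (2 * k) - H (ZMod p) k)) with hh1
  set h2 := lift p (-(1 + 2 * (k : ZMod p)) * H (ZMod p) (2 * k) + (1 + 3 * (k : ZMod p)) *
        H (ZMod p) (3 * k) - k * H (ZMod p) k) with hh2
  set l1 := lift p (H (ZMod p) (2 * k) - H (ZMod p) k) with hl1
  set l2 := lift p (H (ZMod p) (3 * k) - H (ZMod p) (2 * k)) with hl2
  have e1 : (p : R p) * lift p ((k : ZMod p) * gam p k) =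
      p * (((c k : ℕ) : R p) * (h1 + h2 - l1 - l2)) := by
    apply p_mul_eq
    rw [red_lift, map_mul, map_sub, map_sub, map_add, hh1, hh2, hl1, hl2, red_lift, red_lift,
      red_lift, red_lift, red_nat, hg]
    ring
  rw [e1, hcc]
  have hs : ((-1 : R p)) ^ k * (-1) ^ k = 1 := by rw [← mul_pow]; norm_num
  have hs2 : ((-1 : R p)) ^ k * (-1) ^ k * ((-1) ^ k * (-1) ^ k) = 1 := by rw [hs, one_mul]
  set a := (((2 * k).choose k : ℕ) : R p)
  set b := (((3 * k).choose k : ℕ) : R p)
  linear_combination (a * b * (1 - p * l1) * (1 + p * h1) * (1 - p * l2) * (1 + p * h2)) * hs2 +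
    a * b * (h1 * h2 - l1 * h1 - l2 * h1 - l1 * h2 - l2 * h2 + l1 * l2 +
      p * (l1 * l2 * (h1 + h2) - h1 * h2 * (l1 + l2)) + (p : R p) ^ 2 * (l1 * l2 * h1 * h2)) * hpp

/-- the triple Jacobi sum at `3k = p - 1` -/
theorem JT_mid (hodd : Odd p) (k : ℕ) (h0 : 0 < k) (hk : 3 * k = p - 1) :
    JT p k = ((c k : ℕ) : R p) + p * lift p ((k : ZMod p) * gam p k) := by
  have hpp := p_sq p
  rw [JT_fact p hodd k h0 hk.le]
  have r : ∀ j, j < p → H (ZMod p) (p - 1 - j) = H (ZMod p) j := fun j hj => H_refl p hodd j hj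
  rw [jac p hodd k (p - 1 - k) h0 (by omega) (by omega)
      (lift p ((1 + 2 * (k : ZMod p)) * (H (ZMod p) (2 * k) - H (ZMod p) k))) (by
        rw [red_lift, r k (by omega), show p - 1 - k - k = p - 1 - 2 * k by omega,
          r (2 * k) (by omega), castN p (p - 1 - k) k (by omega)]
        ring),
    choose_neg p k k (by omega), show p - 1 - 2 * k = k by omega, J_inv p hodd k h0 (by omega)]
  have hg : gam p k = (c k : ZMod p) * (3 * (H (ZMod p) (3 * k) - H (ZMod p) k)) := by
    unfold gam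
    rw [if_pos (by omega)]
  have h2k : H (ZMod p) (2 * k) = H (ZMod p) k := by
    rw [← r k (by omega)]
    congr 1
    omega
  have h3k : H (ZMod p) (3 * k) = 0 := by
    rw [hk]
    exact H_last p hodd
  have hcc : ((c k : ℕ) : R p) = (((2 * k).choose k : ℕ) : R p) * ((-1) ^ k *
      (1 - p * lift p (H (ZMod p) k))) := by
    have h1 := choose_neg p 0 k (by omega)
    rw [Nat.sub_zero, zero_add, Nat.choose_self, H_zero, sub_zero, ← hk] at h1
    unfold c
    push_cast
    rw [h1]
    push_cast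
    ring
  have hck : ((k : ℕ) : ZMod p) * 3 = -1 := by
    have h1 := castN p (3 * k) 0 (by omega)
    push_cast at h1
    linear_combination h1
  rw [show k + k = 2 * k by ring, h2k, sub_self, mul_zero]
  have e0 : (p : R p) * lift p (0 : ZMod p) = 0 := by
    have : (p : R p) * lift p (0 : ZMod p) = p * 0 := by
      apply p_mul_eq
      rw [red_lift, map_zero]
    rw [this, mul_zero]
  have e1 : (p : R p) * lift p ((k : ZMod p) * gam p k) =
      p * (((c k : ℕ) : R p) * lift p (H (ZMod p) k)) := by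
    apply p_mul_eq
    rw [red_lift, map_mul, red_lift, red_nat, hg, h3k]
    linear_combination (-(c k : ZMod p) * H (ZMod p) k) * hck
  rw [e1, e0, hcc]
  have hs : ((-1 : R p)) ^ k * (-1) ^ k = 1 := by rw [← mul_pow]; norm_num
  set a := (((2 * k).choose k : ℕ) : R p)
  set l := lift p (H (ZMod p) k)
  linear_combination (a * (-1) ^ k) * hs + (a * (-1) ^ k * l ^ 2) * hpp

end Pool.Agent.T9h95.S3
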