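import Pool.Agent.T9h95.S3.JT2

set_option autoImplicit false

/-!
# The values of the triple Jacobi sums modulo `p²`, upper range
-/

namespace Pool.Agent.T9h95.S3

open Finset Pool.Agent.Q267.CDE Pool.Agent.Q267.MW

variable (p : ℕ) [hp : Fact p.Prime]

/-- `(p + m)! = - p m!` -/
theorem fact_shift (m : ℕ) (hm : m < p) :
    (((p + m).factorial : ℕ) : R p) = -(p * ((m.factorial : ℕ) : R p)) := by
  have hpp := p_sq p
  induction m with
  | zero =>
    rw [Nat.add_zero, ← Nat.mul_factorial_pred hp.out.ne_zero]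
    push_cast
    have : (p : R p) * (((p - 1).factorial : ℕ) : R p) = p * (-1) := by
      apply p_mul_eq
      rw [red_nat, map_neg, map_one, ZMod.wilsons_lemma]
    rw [this, Nat.factorial_zero]
    push_cast
    ring
  | succ m ih =>
    have ih := ih (by omega)
    rw [← Nat.add_assoc, Nat.factorial_succ, Nat.factorial_succ]
    push_cast
    rw [ih]
    linear_combination (-((m.factorial : ℕ) : R p)) * hpp

theorem fact_unit (j : ℕ) (hj : j < p) : IsUnit (((j.factorial : ℕ)) : R p) := by
  apply isUnit_of_red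
  rw [red_nat]
  exact fact_ne p j hj

theorem JT_upper_val (hodd : Odd p) (h3 : 3 < p) (k : ℕ) (hk : p - 1 < 3 * k) (hk2 : k < p - 1) :
    JT p k = ((c k : ℕ) : R p) + p * lift p ((k : ZMod p) * gam p k) := by
  have hpp := p_sq p
  have e0 : (p : R p) * lift p ((k : ZMod p) * gam p k) = 3 * (k : R p) * ((c k : ℕ) : R p) := by
    have h1 := p_gam p k (by omega) (by omega)
    have h2 : (p : R p) * lift p ((k : ZMod p) * gam p k) = p * ((k : R p) * lift p (gam p k)) := by
      apply p_mul_eq
      rw [red_lift, map_mul, red_lift, red_nat]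
    rw [h2]
    linear_combination (k : R p) * h1
  rw [e0, JT_upper p k hk hk2]
  rcases Nat.lt_or_ge (2 * (p - 1)) (3 * k) with h | h
  · rw [Nat.choose_eq_zero_of_lt (show 2 * (p - 1) - k - k < k by omega)]
    have hz : (3 * (k : R p) + 1) * ((c k : ℕ) : R p) = 0 := by
      rcases Nat.lt_or_ge (3 * k) (2 * p) with h' | h'
      · have h5 : 3 * k + 1 = 2 * p := by omega
        have h5' := congrArg (Nat.cast (R := R p)) h5
        push_cast at h5'
        obtain ⟨d, hd⟩ := p_dvd_c hp.out k (by omega) (by omega)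
        rw [h5', hd]
        push_cast
        linear_combination 2 * (d : R p) * hpp
      · obtain ⟨d, hd⟩ := p2_dvd_c hp.out k h' (by omega)
        rw [hd]
        push_cast
        linear_combination (3 * (k : R p) + 1) * (d : R p) * hpp
    push_cast
    linear_combination -hz
  · -- the middle range
    obtain ⟨m1, hm1⟩ : ∃ m1, 3 * k + 1 = p + m1 := ⟨3 * k + 1 - p, by omega⟩
    obtain ⟨m2, hm2⟩ : ∃ m2, 2 * (p - 1) - k = p + m2 := ⟨p - 2 - k, by omega⟩
    have f1 : (3 * k + 1) * (3 * k).factorial = (p + m1).factorial := by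
      rw [← hm1, Nat.factorial_succ]
    have f2 := Nat.choose_mul_factorial_mul_factorial (n := 2 * (p - 1) - k) (k := k) (by omega)
    have f3 := Nat.choose_mul_factorial_mul_factorial (n := 2 * (p - 1) - k - k) (k := k) (by omega)
    have f4 := c_fact k
    have e5 : 2 * (p - 1) - k - k - k = p - 1 - m1 := by omega
    rw [e5] at f3
    rw [← f3] at f2
    rw [hm2] at f2
    have s1 := fact_shift p m1 (by omega)
    have s2 := fact_shift p m2 (by omega)
    rw [← f1, ← f4] at s1
    rw [← f2] at s2
    push_cast at s1 s2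
    -- reflections
    have q1 := fact_refl p m1 (by omega)
    have q2 := fact_refl p (k + 1) (by omega)
    rw [show p - 1 - (k + 1) = m2 by omega] at q2
    have hpar : ((-1 : ZMod p)) ^ (m1 + 1) = -(-1) ^ (k + 1 + 1) := by
      obtain ⟨r, hr⟩ := hodd
      have h7 : m1 + 1 + 2 * r = (k + 1 + 1) + (2 * k) - 1 := by omega
      have h8 : m1 + 1 + 2 * r + 1 = (k + 1 + 1) + (2 * k) := by omega
      have h9 : ((-1 : ZMod p)) ^ (m1 + 1 + 2 * r + 1) = (-1) ^ ((k + 1 + 1) + (2 * k)) := by rw [h8]
      rw [pow_succ, pow_add _ (m1 + 1) (2 * r), pow_add _ (k + 1 + 1) (2 * k), pow_mul, pow_mul] at h9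
      norm_num at h9
      linear_combination -h9
    have u1 := fact_unit p k (by omega)
    have u2 := fact_unit p (p - 1 - m1) (by omega)
    apply (u1.pow 3).mul_left_cancel
    apply u2.mul_left_cancel
    have ha := castN p (p - 1 - k) k (by omega)
    rw [Nat.factorial_succ] at q2
    push_cast at q2
    have key : (p : R p) * ((((p - 1 - k : ℕ)) : R p) * ((p : R p) - 1) ^ 2 *
        ((k.factorial : ℕ) : R p) * ((m2.factorial : ℕ) : R p)) =
        p * (((m1.factorial : ℕ) : R p) * ((((p - 1 - m1).factorial : ℕ)) : R p)) := by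
      apply p_mul_eq
      simp only [map_mul, map_pow, map_sub, map_one, red_nat]
      rw [ZMod.natCast_self, ha, mul_comm ((m1.factorial : ℕ) : ZMod p), q1, hpar]
      linear_combination -q2
    rw [hm2]
    set A := (((p + m2).choose k : ℕ) : R p)
    set B := (((p + m2 - k).choose k : ℕ) : R p)
    set kf := ((k.factorial : ℕ) : R p)
    set g1 := ((((p - 1 - m1).factorial : ℕ)) : R p)
    set aa := (((p - 1 - k : ℕ)) : R p)
    linear_combination (aa * ((p : R p) - 1) ^ 2 * kf) * s2 - g1 * s1 - key

/-- **The triple Jacobi sums modulo `p²`.** -/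
theorem JT_val (h3 : 3 < p) (k : ℕ) (h0 : 0 < k) (hk : k < p - 1) :
    JT p k = ((c k : ℕ) : R p) + p * lift p ((k : ZMod p) * gam p k) := by
  have hodd : Odd p := hp.out.odd_of_ne_two (by omega)
  rcases Nat.lt_trichotomy (3 * k) (p - 1) with h | h | h
  · exact JT_lower p hodd k h0 h
  · exact JT_mid p hodd k h0 h
  · exact JT_upper_val p hodd h3 k h hk

end Pool.Agent.T9h95.S3
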