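import Pool.Agent.T9h95.S3.JT3

set_option autoImplicit false

/-!
# The trace of the family `y² + xy + ty = x³` modulo `p²`
-/

namespace Pool.Agent.T9h95.S3

open Finset Pool.Agent.Q267.CDE Pool.Agent.Q267.MW

variable (p : ℕ) [hp : Fact p.Prime]

/-- the trace -/
noncomputable def tr (t : ZMod p) : ℤ := -∑ u : ZMod p, quadraticChar (ZMod p) ((1 - u) ^ 2 - 4 * t * u ^ 3)

/-- the number of points on the torus -/
noncomputable def NN (t : ZMod p) : ℤ := ∑ u : ZMod p, ∑ v : ZMod p, if u * v * (1 - u - v) = t then 1 else 0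

theorem card_quad (h2 : p ≠ 2) (s q : ZMod p) :
    (∑ v : ZMod p, if v ^ 2 - s * v + q = 0 then (1 : ℤ) else 0) =
      quadraticChar (ZMod p) (s ^ 2 - 4 * q) + 1 := by
  have h2' : (2 : ZMod p) ≠ 0 := by
    have h := Pool.Agent.Q267.CDE.cast_ne p 2 (by norm_num)
      (lt_of_le_of_ne hp.out.two_le (Ne.symm h2))
    exact_mod_cast h
  have h4' : (4 : ZMod p) ≠ 0 := by
    have : (4 : ZMod p) = 2 * 2 := by norm_num
    rw [this]
    exact mul_ne_zero h2' h2'
  rw [← quadraticChar_card_sqrts (by rw [ZMod.ringChar_zmod_n]; exact h2) (s ^ 2 - 4 * q)]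
  have e1 : ((({x : ZMod p | x ^ 2 = s ^ 2 - 4 * q} : Set (ZMod p)).toFinset.card : ℕ) : ℤ) =
      ∑ w : ZMod p, if w ^ 2 = s ^ 2 - 4 * q then (1 : ℤ) else 0 := by
    rw [Finset.sum_boole]
    congr 2
    ext x
    simp
  rw [e1]
  refine Fintype.sum_equiv ((Equiv.mulLeft₀ 2 h2').trans (Equiv.subRight s)) _ _ fun v => ?_
  rw [Equiv.trans_apply, Equiv.mulLeft₀_apply, Equiv.subRight_apply]
  have : v ^ 2 - s * v + q = 0 ↔ (2 * v - s) ^ 2 = s ^ 2 - 4 * q := by
    constructor
    · intro h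
      linear_combination 4 * h
    · intro h
      apply mul_left_cancel₀ h4'
      linear_combination h
  simp only [this]

theorem NN_eq (h2 : p ≠ 2) (t : ZMod p) (ht : t ≠ 0) : NN p t = p - 2 - tr p t := by
  unfold NN tr
  have e1 : ∀ u : ZMod p, (∑ v : ZMod p, if u * v * (1 - u - v) = t then (1 : ℤ) else 0) =
      if u = 0 then 0 else quadraticChar (ZMod p) ((1 - u) ^ 2 - 4 * (t * u⁻¹)) + 1 := by
    intro u
    split_ifs with hu
    · subst hu
      refine sum_eq_zero fun v _ => ?_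
      rw [if_neg]
      intro h
      apply ht
      rw [← h]
      ring
    · rw [← card_quad p h2]
      refine sum_congr rfl fun v _ => ?_
      have : u * v * (1 - u - v) = t ↔ v ^ 2 - (1 - u) * v + t * u⁻¹ = 0 := by
        constructor
        · intro h
          rw [← h]
          field_simp
          ring
        · intro h
          have h5 : u * (v ^ 2 - (1 - u) * v + t * u⁻¹) = 0 := by rw [h, mul_zero]
          have h6 : u * u⁻¹ = 1 := mul_inv_cancel₀ hu
          linear_combination -h5 + t * h6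
      simp only [this]
  rw [sum_congr rfl fun u _ => e1 u]
  have e2 : (∑ u : ZMod p, if u = 0 then (0 : ℤ) else
      quadraticChar (ZMod p) ((1 - u) ^ 2 - 4 * (t * u⁻¹)) + 1) =
      ∑ u : ZMod p, ((quadraticChar (ZMod p) ((1 - u) ^ 2 - 4 * t * u ^ 3) + 1) -
        if u = 0 then 2 else 0) := by
    refine Fintype.sum_equiv (Equiv.inv (ZMod p)) _ _ fun u => ?_
    rw [Equiv.inv_apply]
    by_cases hu : u = 0
    · subst hu
      simp
    · rw [if_neg hu, if_neg (inv_ne_zero hu), sub_zero]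
      congr 1
      have h6 : u * u⁻¹ = 1 := mul_inv_cancel₀ hu
      have : (1 - u) ^ 2 - 4 * (t * u⁻¹) = u ^ 2 * ((1 - u⁻¹) ^ 2 - 4 * t * u⁻¹ ^ 3) := by
        have h7 : u ^ 2 * u⁻¹ ^ 2 = 1 := by rw [← mul_pow, h6, one_pow]
        linear_combination (2 * u) * h6 + (4 * t * u⁻¹ - 1) * h7
      rw [this, map_mul, map_pow, quadraticChar_sq_one hu, one_mul]
  rw [e2, sum_sub_distrib, sum_ite_eq' univ (0 : ZMod p), if_pos (mem_univ _), sum_add_distrib,
    sum_const, card_univ, ZMod.card, nsmul_eq_mul]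
  ring

theorem NN_sum (t : ZMod p) (ht : t ≠ 0) : ((p : R p) - 1) * ((NN p t : ℤ) : R p) =
    ∑ k ∈ range (p - 1), JT p k * om p t ^ k := by
  have hp2 := hp.out.two_le
  unfold NN JT
  push_cast
  rw [mul_sum]
  have e : ∀ k ∈ range (p - 1), (∑ u : ZMod p, ∑ v : ZMod p, om p u ^ (p - 1 - k) *
      (om p v ^ (p - 1 - k) * om p (1 - u - v) ^ (p - 1 - k))) * om p t ^ k =
      ∑ u : ZMod p, ∑ v : ZMod p, om p (u * v * (1 - u - v)) ^ (p - 1 - k) * om p t ^ k := by
    intro k _
    rw [sum_mul]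
    refine sum_congr rfl fun u _ => ?_
    rw [sum_mul]
    refine sum_congr rfl fun v _ => ?_
    rw [om_mul, om_mul, mul_pow, mul_pow]
    ring
  rw [sum_congr rfl e, sum_comm]
  refine sum_congr rfl fun u _ => ?_
  rw [mul_sum, sum_comm]
  refine sum_congr rfl fun v _ => ?_
  by_cases hs : u * v * (1 - u - v) = 0
  · rw [hs, if_neg (fun h => ht h.symm), mul_zero]
    symm
    refine sum_eq_zero fun k hk => ?_
    have hk' : k < p - 1 := mem_range.mp hk
    rw [om_zero, zero_pow (by omega), zero_mul]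
  · rw [orth p _ t hs ht]
    split_ifs <;> ring

/-- **The trace formula modulo `p²`.** -/
theorem trace_formula (h3 : 3 < p) (t : ZMod p) (ht : t ≠ 0) :
    ((tr p t : ℤ) : R p) = (1 + p) * ∑ k ∈ range p,
      (((c k : ℕ) : R p) + p * lift p ((k : ZMod p) * gam p k)) * om p t ^ k := by
  have hpp := p_sq p
  have h1 := NN_sum p t ht
  rw [NN_eq p (by omega) t ht] at h1
  obtain ⟨q, hq⟩ : ∃ q, p - 1 = q + 1 := ⟨p - 2, by omega⟩
  have hz : ∀ x : ZMod p, x = 0 → (p : R p) * lift p x = 0 := by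
    intro x hx
    have : (p : R p) * lift p x = p * 0 := by
      apply p_mul_eq
      rw [red_lift, map_zero, hx]
    rw [this, mul_zero]
  have e1 : ∑ k ∈ range (p - 1), JT p k * om p t ^ k = (2 - 3 * (p : R p)) +
      ∑ k ∈ range (p - 1), (((c k : ℕ) : R p) + p * lift p ((k : ZMod p) * gam p k)) * om p t ^ k := by
    rw [hq, sum_range_succ', sum_range_succ']
    have e2 : ∑ k ∈ range q, JT p (k + 1) * om p t ^ (k + 1) =
        ∑ k ∈ range q, (((c (k + 1) : ℕ) : R p) + p * lift p (((k + 1 : ℕ) : ZMod p) *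
          gam p (k + 1))) * om p t ^ (k + 1) := by
      refine sum_congr rfl fun k hk => ?_
      have hk' : k < q := mem_range.mp hk
      rw [JT_val p h3 (k + 1) (by omega) (by omega)]
    rw [e2, JT_zero p h3, hz _ (by simp), c_zero, pow_zero]
    push_cast
    ring
  rw [e1] at h1
  have e3 : ∑ k ∈ range p, (((c k : ℕ) : R p) + p * lift p ((k : ZMod p) * gam p k)) * om p t ^ k =
      ∑ k ∈ range (p - 1), (((c k : ℕ) : R p) + p * lift p ((k : ZMod p) * gam p k)) * om p t ^ k := by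
    have hr : range p = range (p - 1 + 1) := by
      congr 1
      omega
    rw [hr, sum_range_succ]
    obtain ⟨d, hd⟩ := p2_dvd_c hp.out (p - 1) (by omega) (by omega)
    have hc0 : ((c (p - 1) : ℕ) : R p) = 0 := by
      rw [hd]
      push_cast
      linear_combination (d : R p) * hpp
    rw [hc0, hz _ (by rw [gam_big p (p - 1) (by omega) (by omega), mul_zero])]
    ring
  rw [e3]
  push_cast at h1
  linear_combination (1 + (p : R p)) * h1 + (((tr p t : ℤ) : R p) - 1 - p) * hpp

end Pool.Agent.T9h95.S3
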