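import Pool.Agent.T9h95.S3.Pull

set_option autoImplicit false

/-!
# Uniqueness, degrees, values; the quadratic transformation modulo `p`
-/

namespace Pool.Agent.T9h95.S3

open Finset Polynomial

variable (p : ℕ) [hp : Fact p.Prime]

theorem stepM (a : ZMod p) (Q : (ZMod p)[X]) (hPQ : X * (1 - X) * (2 + X) * (3 + X) = (X - C a) * Q)
    (hQ : Q.eval a ≠ 0) (Y : (ZMod p)[X]) (hY : MM p Y = 0) (j : ℕ)
    (hj : j + 1 < p) (h : (X - C a) ^ (j + 1) ∣ Y) : (X - C a) ^ (j + 2) ∣ Y := by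
  obtain ⟨Z, rfl⟩ := h
  set W : (ZMod p)[X] := C ((j + 1 : ℕ) : ZMod p) * Z + (X - C a) * derivative Z with hW
  have e1 : derivative ((X - C a) ^ (j + 1) * Z) = (X - C a) ^ j * W := by
    rw [derivative_mul, derivative_pow, derivative_sub, derivative_X, derivative_C, hW,
      Nat.add_sub_cancel]
    ring
  have e2 : X * (1 - X) * (2 + X) * (3 + X) * derivative ((X - C a) ^ (j + 1) * Z) =
      (X - C a) ^ (j + 1) * (Q * W) := by
    rw [e1, hPQ]; ring
  unfold MM at hY
  rw [e2, derivative_mul, derivative_pow, derivative_sub, derivative_X, derivative_C,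
    Nat.add_sub_cancel] at hY
  have e3 : (X - C a) ^ j * (C ((j + 1 : ℕ) : ZMod p) * (Q * W) + (X - C a) * derivative (Q * W)
      - 2 * X * (2 + X) * ((X - C a) * Z)) = 0 := by
    rw [← hY]; ring
  have e4 := (mul_eq_zero.1 e3).resolve_left (pow_ne_zero _ (X_sub_C_ne_zero a))
  have e5 := congrArg (eval a) e4
  simp only [eval_add, eval_mul, eval_C, eval_X, eval_zero, hW, eval_sub,
    sub_self, zero_mul, mul_zero, add_zero, sub_zero] at e5
  have hj0 : ((j + 1 : ℕ) : ZMod p) ≠ 0 :=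
    Pool.Agent.Q267.CDE.cast_ne p (j + 1) (by omega) hj
  have e6 : eval a Z = 0 := by
    rcases mul_eq_zero.1 e5 with h | h
    · exact absurd h hj0
    · rcases mul_eq_zero.1 h with h | h
      · exact absurd h hQ
      · exact (mul_eq_zero.1 h).resolve_left hj0
  obtain ⟨T, rfl⟩ := dvd_iff_isRoot.2 (show IsRoot Z a from e6)
  exact ⟨T, by ring⟩

theorem all_steps (a : ZMod p) (Q : (ZMod p)[X])
    (hPQ : X * (1 - X) * (2 + X) * (3 + X) = (X - C a) * Q)
    (hQ : Q.eval a ≠ 0) (Y : (ZMod p)[X]) (hY : MM p Y = 0) (h0 : Y.eval a = 0) :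
    (X - C a) ^ p ∣ Y := by
  have key : ∀ j, j < p → (X - C a) ^ (j + 1) ∣ Y := by
    intro j hj
    induction j with
    | zero => rw [zero_add, pow_one]; exact dvd_iff_isRoot.2 h0
    | succ j ih => exact stepM p a Q hPQ hQ Y hY j hj (ih (by omega))
  have h1 := key (p - 1) (by have := hp.out.pos; omega)
  rwa [show p - 1 + 1 = p by have := hp.out.pos; omega] at h1

theorem dvd0 (h3 : 3 < p) (Y : (ZMod p)[X]) (hY : MM p Y = 0) (h0 : Y.eval 0 = 0) :
    (X - C (0 : ZMod p)) ^ p ∣ Y := by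
  refine all_steps p 0 ((1 - X) * (2 + X) * (3 + X)) ?_ ?_ Y hY h0
  · rw [C_0]; ring
  · simp only [eval_mul, eval_sub, eval_add, eval_X, eval_one, eval_ofNat]
    have := ne_small p 6 1 1 h3 (by norm_num)
    intro h
    apply this
    push_cast
    linear_combination h

theorem dvd1 (h3 : 3 < p) (Y : (ZMod p)[X]) (hY : MM p Y = 0) (h0 : Y.eval 1 = 0) :
    (X - C (1 : ZMod p)) ^ p ∣ Y := by
  refine all_steps p 1 (-(X * (2 + X) * (3 + X))) ?_ ?_ Y hY h0
  · rw [C_1]; ring
  · simp only [eval_mul, eval_neg, eval_add, eval_X, eval_ofNat]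
    have := ne_small p 12 2 1 h3 (by norm_num)
    intro h
    apply this
    push_cast
    linear_combination -h

theorem dvd3 (h3 : 3 < p) (Y : (ZMod p)[X]) (hY : MM p Y = 0) (h0 : Y.eval (-3) = 0) :
    (X - C (-3 : ZMod p)) ^ p ∣ Y := by
  refine all_steps p (-3) (X * (1 - X) * (2 + X)) ?_ ?_ Y hY h0
  · rw [C_neg, map_ofNat]; ring
  · simp only [eval_mul, eval_sub, eval_add, eval_X, eval_one, eval_ofNat]
    have := ne_small p 12 2 1 h3 (by norm_num)
    intro h
    apply this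
    push_cast
    linear_combination h

/-! ### Degrees -/

theorem deg_PA : (PA p).natDegree ≤ 3 := by
  unfold PA
  compute_degree

theorem deg_PB : (PB p).natDegree ≤ 3 := by
  unfold PB
  compute_degree

theorem deg_SA (E : ℕ) (u : ℕ → ZMod p) (hu : ∀ k, k < p → E < 3 * k → u k = 0) (j : ℕ) :
    (SA p E u j).natDegree ≤ E := by
  unfold SA S
  refine natDegree_sum_le_of_forall_le _ _ fun k hk => ?_
  have hk' : k < p := mem_range.mp hk
  by_cases hE : E < 3 * k
  · rw [hu k hk' hE]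
    simp
  refine natDegree_mul_le.trans ?_
  have h1 : (C (u k * (k : ZMod p) ^ j) * PA p ^ k).natDegree ≤ k * 3 :=
    (natDegree_C_mul_le _ _).trans (natDegree_pow_le.trans (Nat.mul_le_mul_left _ (deg_PA p)))
  have h2 : (((1 : (ZMod p)[X]) + X) ^ (E - 3 * k)).natDegree ≤ (E - 3 * k) * 1 := by
    refine natDegree_pow_le.trans (Nat.mul_le_mul_left _ ?_)
    compute_degree
  omega

theorem deg_SB (E : ℕ) (u : ℕ → ZMod p) (hu : ∀ k, k < p → E < 3 * k → u k = 0) (j : ℕ) :
    (SB p u j).natDegree ≤ E := by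
  unfold SB S
  refine natDegree_sum_le_of_forall_le _ _ fun k hk => ?_
  have hk' : k < p := mem_range.mp hk
  by_cases hE : E < 3 * k
  · rw [hu k hk' hE]
    simp
  rw [one_pow, mul_one]
  have h1 : (C (u k * (k : ZMod p) ^ j) * PB p ^ k).natDegree ≤ k * 3 :=
    (natDegree_C_mul_le _ _).trans (natDegree_pow_le.trans (Nat.mul_le_mul_left _ (deg_PB p)))
  omega

/-! ### Values -/

theorem eval_SB (u : ℕ → ZMod p) (x : ZMod p) :
    (SB p u 0).eval x = ∑ k ∈ range p, u k * ((108 : ZMod p)⁻¹ * x ^ 2 * (3 + x)) ^ k := by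
  unfold SB S
  rw [eval_finsetSum]
  refine sum_congr rfl fun k _ => ?_
  unfold PB
  simp

theorem eval_SA (E : ℕ) (u : ℕ → ZMod p) (hu : ∀ k, k < p → E < 3 * k → u k = 0) (x t : ZMod p)
    (ht : 54 * t * (1 + x) ^ 3 = x * (3 + x) ^ 2) (h3 : 3 < p) :
    (SA p E u 0).eval x = (1 + x) ^ E * ∑ k ∈ range p, u k * t ^ k := by
  have h54 := ne_small p 54 1 3 h3 (by norm_num)
  have h54' : (54 : ZMod p) ≠ 0 := by exact_mod_cast h54
  unfold SA S
  rw [eval_finsetSum, mul_sum]
  refine sum_congr rfl fun k hk => ?_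
  have hk' : k < p := mem_range.mp hk
  by_cases hE : E < 3 * k
  · rw [hu k hk' hE]
    simp
  have e : (PA p).eval x = t * (1 + x) ^ 3 := by
    unfold PA
    simp only [eval_mul, eval_C, eval_X, eval_pow, eval_add, eval_ofNat]
    apply mul_left_cancel₀ h54'
    have := mul_inv_cancel₀ h54'
    linear_combination x * (3 + x) ^ 2 * this - ht
  rw [eval_mul, eval_mul, eval_pow, eval_pow, e, eval_C, eval_add, eval_one, eval_X, pow_zero,
    mul_one, mul_pow, ← pow_mul]
  rw [show (1 + x) ^ E = (1 + x) ^ (E - 3 * k) * (1 + x) ^ (3 * k) by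
    rw [← pow_add]; congr 1; omega]
  ring

theorem cK_supp (k : ℕ) (hk : k < p) (h : p - 1 < 3 * k) : cK p k = 0 :=
  c_cast_zero p k (by omega) hk

theorem gam_supp (k : ℕ) (hk : k < p) (h : 2 * p - 1 < 3 * k) : gam p k = 0 :=
  gam_big p k (by omega) hk

theorem cK_supp2 (k : ℕ) (hk : k < p) (h : 2 * p - 1 < 3 * k) : cK p k = 0 :=
  c_cast_zero p k (by omega) hk

theorem castE1 : ((p - 1 : ℕ) : ZMod p) = -1 := by
  rw [Nat.cast_sub hp.out.one_le, ZMod.natCast_self]
  ring

theorem castE2 : ((2 * p - 1 : ℕ) : ZMod p) = -1 := by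
  have := hp.out.one_le
  rw [Nat.cast_sub (by omega)]
  push_cast
  rw [ZMod.natCast_self]
  ring

theorem sum_at_zero (u : ℕ → ZMod p) : ∑ k ∈ range p, u k * (0 : ZMod p) ^ k = u 0 := by
  rw [sum_eq_single 0]
  · simp
  · intro k _ hk
    rw [zero_pow hk, mul_zero]
  · intro h
    exact absurd (mem_range.2 hp.out.pos) h

/-- **The quadratic transformation modulo `p`.** -/
theorem trans2 (h3 : 3 < p) : SA p (p - 1) (cK p) 0 = SB p (cK p) 0 := by
  rw [← sub_eq_zero]
  set D := SA p (p - 1) (cK p) 0 - SB p (cK p) 0 with hD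
  have hM : MM p D = 0 := by
    rw [hD, MM_sub, MM_A p h3 (p - 1) (castE1 p) (fun k hk h => cK_supp p k hk h), MM_B p h3,
      sub_zero]
  have h0 : D.eval 0 = 0 := by
    rw [hD, eval_sub, eval_SB, eval_SA p (p - 1) (cK p) (fun k hk h => cK_supp p k hk h) 0 0
      (by ring) h3]
    have : (108 : ZMod p)⁻¹ * 0 ^ 2 * (3 + 0) = 0 := by ring
    rw [this]
    ring
  have hd := dvd0 p h3 D hM h0
  by_contra hne
  have h1 := natDegree_le_of_dvd hd hne
  rw [natDegree_pow, natDegree_X_sub_C] at h1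
  have d1 := deg_SA p (p - 1) (cK p) (fun k hk h => cK_supp p k hk h) 0
  have d2 := deg_SB p (p - 1) (cK p) (fun k hk h => cK_supp p k hk h) 0
  have d3 := natDegree_sub_le (SA p (p - 1) (cK p) 0) (SB p (cK p) 0)
  rw [← hD] at d3
  have := hp.out.pos
  omega

end Pool.Agent.T9h95.S3
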