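import Pool.Agent.T9h95.S3.Sums
import Pool.Agent.T9h95.S3.Uniq

set_option autoImplicit false

/-!
# The Wronskian modulo `p`
-/

namespace Pool.Agent.T9h95.S3

open Finset Polynomial

variable (p : ℕ) [hp : Fact p.Prime]

/-- the sums in the variable itself -/
noncomputable def SX (u : ℕ → ZMod p) (j : ℕ) : (ZMod p)[X] := S p (3 * p) X 1 u j

theorem x_deriv (u : ℕ → ZMod p) (j : ℕ) : X * derivative (SX p u j) = SX p u (j + 1) := by
  have h := S_deriv p (3 * p) X 1 u (fun k hk hk2 => by omega) j
  rw [derivative_X, derivative_one] at h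
  unfold SX
  linear_combination h

theorem x_contig (h3 : 3 < p) : (1 - 27 * X) * SX p (cK p) 2 =
    X * (27 * SX p (cK p) 1 + 6 * SX p (cK p) 0) := by
  have h := S_contig p h3 (3 * p) X 1 (fun k hk hk2 => by omega)
  unfold SX
  linear_combination h

theorem x_contig' (h3 : 3 < p) : (1 - 27 * X) * SX p (gam p) 2 =
    X * (27 * SX p (gam p) 1 + 6 * SX p (gam p) 0 + 54 * SX p (cK p) 1 +
      27 * SX p (cK p) 0) - 2 * SX p (cK p) 1 := by
  have h := S_contig' p h3 (3 * p) X 1 (fun k hk hk2 => by omega) (fun k hk hk2 => by omega)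
  unfold SX
  linear_combination h

/-- the Wronskian -/
noncomputable def VV : (ZMod p)[X] :=
  SX p (cK p) 0 ^ 2 + (SX p (cK p) 0 * SX p (gam p) 1 - SX p (gam p) 0 * SX p (cK p) 1)

theorem VV_ode (h3 : 3 < p) : (1 - 27 * X) * derivative (VV p) = 27 * VV p := by
  have f0 := x_deriv p (cK p) 0
  have f1 := x_deriv p (cK p) 1
  have g0 := x_deriv p (gam p) 0
  have g1 := x_deriv p (gam p) 1
  have c1 := x_contig p h3
  have c2 := x_contig' p h3
  rw [show (0 + 1 : ℕ) = 1 from rfl] at f0 g0
  rw [show (1 + 1 : ℕ) = 2 from rfl] at f1 g1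
  apply mul_left_cancel₀ (X_ne_zero (R := ZMod p))
  unfold VV
  simp only [derivative_add, derivative_mul, derivative_sub, derivative_pow, Nat.cast_ofNat,
    map_ofNat, Nat.add_one_sub_one, pow_one]
  set F0 := SX p (cK p) 0
  set F1 := SX p (cK p) 1
  set F2 := SX p (cK p) 2
  set G0 := SX p (gam p) 0
  set G1 := SX p (gam p) 1
  set G2 := SX p (gam p) 2
  linear_combination (1 - 27 * X) * (2 * F0 * f0 + (G1 * f0 + F0 * g1 - F1 * g0 - G0 * f1)) +
    F0 * c2 - G0 * c1

theorem poly_of_der (Z : (ZMod p)[X]) (hd : Z.natDegree ≤ p) (h : derivative Z = 0) :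
    Z = C (Z.coeff 0) + C (Z.coeff p) * X ^ p := by
  have hp0 := hp.out.pos
  ext i
  rw [coeff_add, coeff_C, coeff_C_mul, coeff_X_pow]
  by_cases h0 : i = 0
  · subst h0
    rw [if_pos rfl, if_neg (by omega), mul_zero, add_zero]
  · rw [if_neg h0, zero_add]
    by_cases h1 : i = p
    · rw [if_pos h1, mul_one, h1]
    · rw [if_neg h1, mul_zero]
      by_cases h2 : i < p
      · have h3 := congrArg (fun q => q.coeff (i - 1)) h
        simp only [coeff_derivative, coeff_zero] at h3
        rw [Nat.sub_add_cancel (by omega)] at h3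
        have h4 : (((i - 1 : ℕ) : ZMod p) + 1) ≠ 0 := by
          have := Pool.Agent.Q267.CDE.cast_ne p i (by omega) h2
          have e : ((i - 1 : ℕ) : ZMod p) + 1 = ((i : ℕ) : ZMod p) := by
            rw [Nat.cast_sub (by omega)]
            push_cast
            ring
          rw [e]
          exact this
        exact (mul_eq_zero.mp h3).resolve_right h4
      · exact coeff_eq_zero_of_natDegree_lt (by omega)

theorem deg_SX (E : ℕ) (u : ℕ → ZMod p) (hu : ∀ k, k < p → E < 3 * k → u k = 0) (j : ℕ) :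
    3 * (SX p u j).natDegree ≤ E := by
  have h : (SX p u j).natDegree ≤ E / 3 := by
    unfold SX S
    refine natDegree_sum_le_of_forall_le _ _ fun k hk => ?_
    have hk' : k < p := mem_range.mp hk
    by_cases hE : E < 3 * k
    · rw [hu k hk' hE]
      simp
    rw [one_pow, mul_one]
    refine (natDegree_C_mul_le _ _).trans ?_
    rw [natDegree_X_pow]
    omega
  omega

theorem eval_SX (u : ℕ → ZMod p) (j : ℕ) (x : ZMod p) :
    (SX p u j).eval x = ∑ k ∈ range p, u k * (k : ZMod p) ^ j * x ^ k := by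
  unfold SX S
  rw [eval_finsetSum]
  refine sum_congr rfl fun k _ => ?_
  simp

theorem n27 (h3 : 3 < p) : (27 : ZMod p) ≠ 0 := by
  exact_mod_cast ne_small p 27 0 3 h3 (by norm_num)

/-- **The Wronskian.** -/
theorem wron (h3 : 3 < p) : VV p = (1 - 27 * X) ^ (p - 1) := by
  have hode := VV_ode p h3
  set Z : (ZMod p)[X] := (1 - 27 * X) * VV p with hZ
  have hder : derivative Z = 0 := by
    rw [hZ, derivative_mul, derivative_sub, derivative_one, derivative_mul, derivative_X,
      derivative_ofNat]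
    linear_combination hode
  have a1 := deg_SX p (p - 1) (cK p) (fun k hk h => cK_supp p k hk h)
  have a2 := deg_SX p (2 * p - 1) (gam p) (fun k hk h => gam_supp p k hk h)
  have hdeg : Z.natDegree ≤ p := by
    have e1 : (VV p).natDegree ≤ p - 1 := by
      unfold VV
      refine (natDegree_add_le _ _).trans (max_le ?_ ?_)
      · refine natDegree_pow_le.trans ?_
        have := a1 0
        omega
      · refine (natDegree_sub_le _ _).trans (max_le ?_ ?_)
        · refine natDegree_mul_le.trans ?_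
          have := a1 0
          have := a2 1
          omega
        · refine natDegree_mul_le.trans ?_
          have := a1 1
          have := a2 0
          omega
    rw [hZ]
    refine natDegree_mul_le.trans ?_
    have e2 : (1 - 27 * X : (ZMod p)[X]).natDegree ≤ 1 := by compute_degree
    omega
  have hform := poly_of_der p Z hdeg hder
  have hc0 : Z.coeff 0 = 1 := by
    rw [coeff_zero_eq_eval_zero, hZ]
    unfold VV
    simp only [eval_mul, eval_add, eval_sub, eval_pow, eval_SX, eval_one, eval_X, mul_zero,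
      sub_zero, one_mul]
    have e0 : ∀ u : ℕ → ZMod p, ∀ j : ℕ, ∑ k ∈ range p, u k * (k : ZMod p) ^ j * (0 : ZMod p) ^ k =
        u 0 * (0 : ZMod p) ^ j := by
      intro u j
      have := sum_at_zero p (fun k => u k * (k : ZMod p) ^ j)
      rw [this]
      simp
    rw [e0, e0, e0, e0, gam_zero]
    simp [cK, c_zero]
  have hcp : Z.coeff p = -27 := by
    have h1 := congrArg (eval ((27 : ZMod p)⁻¹)) hform
    rw [hZ, eval_mul, eval_sub, eval_one, eval_mul, eval_ofNat, eval_X,
      mul_inv_cancel₀ (n27 p h3), sub_self, zero_mul, ← hZ, eval_add, eval_mul, eval_C, eval_C,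
      eval_pow, eval_X, ZMod.pow_card, hc0] at h1
    have h2 := mul_inv_cancel₀ (n27 p h3)
    have h3' : (27 : ZMod p)⁻¹ ≠ 0 := inv_ne_zero (n27 p h3)
    apply mul_right_cancel₀ h3'
    linear_combination -h1 + h2
  rw [hc0, hcp] at hform
  have hfr : ((1 : (ZMod p)[X]) - 27 * X) ^ p = 1 - 27 * X ^ p := by
    rw [sub_pow_char, one_pow, mul_pow]
    have : (27 : (ZMod p)[X]) ^ p = 27 := by
      rw [show (27 : (ZMod p)[X]) = C 27 by rw [map_ofNat], ← C_pow, ZMod.pow_card]
    rw [this]
  have hne : (1 - 27 * X : (ZMod p)[X]) ≠ 0 := by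
    intro h
    have := congrArg (fun f : (ZMod p)[X] => f.eval 0) h
    simp at this
  apply mul_left_cancel₀ hne
  rw [← pow_succ', Nat.sub_add_cancel hp.out.one_le, hfr, ← hZ, hform, C_1, C_neg, map_ofNat]
  ring

/-- the value of the Wronskian at a point of the prime field -/
theorem wron_eval (h3 : 3 < p) (t : ZMod p) :
    (∑ k ∈ range p, cK p k * t ^ k) ^ 2 +
      ((∑ k ∈ range p, cK p k * t ^ k) * (∑ k ∈ range p, gam p k * k * t ^ k) -
      (∑ k ∈ range p, gam p k * t ^ k) * (∑ k ∈ range p, cK p k * k * t ^ k)) =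
      (1 - 27 * t) ^ (p - 1) := by
  have h := congrArg (eval t) (wron p h3)
  unfold VV at h
  simp only [eval_add, eval_sub, eval_mul, eval_pow, eval_SX, pow_zero, pow_one, mul_one, eval_one,
    eval_X, eval_ofNat] at h
  exact h

theorem der_at (h3 : 3 < p) : ∑ k ∈ range p, cK p k * k * ((27 : ZMod p)⁻¹) ^ k =
    -(6 * (27 : ZMod p)⁻¹) * ∑ k ∈ range p, cK p k * ((27 : ZMod p)⁻¹) ^ k := by
  have h := congrArg (eval ((27 : ZMod p)⁻¹)) (x_contig p h3)
  simp only [eval_add, eval_sub, eval_mul, eval_SX, pow_zero, pow_one, mul_one, eval_one,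
    eval_X, eval_ofNat] at h
  have h2 := mul_inv_cancel₀ (n27 p h3)
  rw [h2, sub_self, zero_mul] at h
  set a := ∑ k ∈ range p, cK p k * ((27 : ZMod p)⁻¹) ^ k
  set b := ∑ k ∈ range p, cK p k * k * ((27 : ZMod p)⁻¹) ^ k
  linear_combination -h - b * h2

end Pool.Agent.T9h95.S3
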