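import Pool.Agent.T9h95.S3.Canon
import Pool.Agent.T9h95.S3.Wron
import Pool.Agent.T9h95.S3.Trace
import Pool.Agent.T9h95.S3.Clausen
import Pool.Agent.Q267.MW.KeyLeg

set_option autoImplicit false

/-!
# The trace at a canonical point, and the value at the nodal fibre
-/

namespace Pool.Agent.T9h95.S3

open Finset Pool.Agent.Q267.CDE Pool.Agent.Q267.MW

variable (p : ℕ) [hp : Fact p.Prime]

/-- the truncated series at a point -/
def FF (T : R p) : R p := ∑ k ∈ range p, ((c k : ℕ) : R p) * T ^ k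

theorem red_FF (T : R p) : red p (FF p T) = ∑ k ∈ range p, cK p k * (red p T) ^ k := by
  unfold FF
  rw [map_sum]
  refine sum_congr rfl fun k _ => ?_
  rw [map_mul, map_pow, red_nat]
  rfl

/-- the trace formula at a point with a given `p`-th power -/
theorem tr_point (h3 : 3 < p) (T q : R p) (hT0 : red p T ≠ 0) (hq : T ^ p = T * (1 + p * q)) :
    ((tr p (red p T) : ℤ) : R p) = FF p T + p * lift p (red p (FF p T) +
      ∑ k ∈ range p, gam p k * k * (red p T) ^ k +
      red p q * ∑ k ∈ range p, cK p k * k * (red p T) ^ k) := by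
  have hpp := p_sq p
  rw [trace_formula p h3 _ hT0]
  have hom : om p (red p T) = T * (1 + p * q) := by rw [om_eq p (red p T) T rfl, hq]
  have hTk : ∀ k : ℕ, om p (red p T) ^ k = T ^ k + p * (q * (k * T ^ k)) := by
    intro k
    rw [hom]
    induction k with
    | zero => simp
    | succ k ih =>
      rw [pow_succ (T * (1 + (p : R p) * q)), ih, pow_succ T]
      push_cast
      linear_combination (q ^ 2 * (k : R p) * T ^ k * T) * hpp
  have e : (p : R p) * lift p (red p (FF p T) + ∑ k ∈ range p, gam p k * k * (red p T) ^ k +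
      red p q * ∑ k ∈ range p, cK p k * k * (red p T) ^ k) =
      p * (FF p T + ∑ k ∈ range p, lift p ((k : ZMod p) * gam p k) * T ^ k +
        q * ∑ k ∈ range p, ((c k : ℕ) : R p) * (k * T ^ k)) := by
    apply p_mul_eq
    rw [red_lift, map_add, map_add, map_mul, map_sum, map_sum]
    congr 1
    · congr 1
      refine sum_congr rfl fun k _ => ?_
      rw [map_mul, red_lift, map_pow]
      ring
    · congr 1
      refine sum_congr rfl fun k _ => ?_
      rw [map_mul, map_mul, map_pow, red_nat, red_nat]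
      unfold cK
      ring
  have e2 : ∑ k ∈ range p, (((c k : ℕ) : R p) + p * lift p ((k : ZMod p) * gam p k)) *
      om p (red p T) ^ k = FF p T + p * (∑ k ∈ range p, lift p ((k : ZMod p) * gam p k) * T ^ k +
        q * ∑ k ∈ range p, ((c k : ℕ) : R p) * (k * T ^ k)) := by
    unfold FF
    rw [mul_add, mul_sum, mul_sum, mul_sum, ← sum_add_distrib, ← sum_add_distrib]
    refine sum_congr rfl fun k _ => ?_
    rw [hTk]
    linear_combination (lift p ((k : ZMod p) * gam p k) * q * k * T ^ k) * hpp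
  rw [e, e2]
  linear_combination (∑ k ∈ range p, lift p ((k : ZMod p) * gam p k) * T ^ k +
        q * ∑ k ∈ range p, ((c k : ℕ) : R p) * (k * T ^ k)) * hpp

/-- **The unit root at a canonical point.** -/
theorem key (h3 : 3 < p) (T q : R p) (hT0 : red p T ≠ 0) (hT1 : 1 - 27 * red p T ≠ 0)
    (hq : T ^ p = T * (1 + p * q))
    (hcan : red p q * ∑ k ∈ range p, cK p k * (red p T) ^ k +
      ∑ k ∈ range p, gam p k * (red p T) ^ k = 0) :
    FF p T ^ 2 = ((tr p (red p T) : ℤ) : R p) ^ 2 - 2 * p := by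
  have hpp := p_sq p
  have htr := tr_point p h3 T q hT0 hq
  have hw := wron_eval p h3 (red p T)
  rw [ZMod.pow_card_sub_one_eq_one hT1] at hw
  have hF := red_FF p T
  apply sq_of_key
  · rw [htr]
    have hfin : (p : R p) * (FF p T * lift p (red p (FF p T) +
        ∑ k ∈ range p, gam p k * k * (red p T) ^ k +
        red p q * ∑ k ∈ range p, cK p k * k * (red p T) ^ k)) = p * 1 := by
      apply p_mul_eq
      rw [map_mul, red_lift, map_one, hF]
      linear_combination hw + (∑ k ∈ range p, cK p k * k * (red p T) ^ k) * hcan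
    linear_combination hfin
  · rw [htr, map_add, map_mul, red_nat, ZMod.natCast_self, zero_mul, add_zero]

/-- the trace at the nodal fibre -/
theorem tr_node (h3 : 3 < p) : (tr p ((27 : ZMod p)⁻¹)) ^ 2 = 1 := by
  have n27 := n27 p h3
  have n4 : (4 : ZMod p) ≠ 0 := by exact_mod_cast ne_small p 4 2 0 h3 (by norm_num)
  have n9 : (-9 : ZMod p) ≠ 0 := by
    have : (9 : ZMod p) ≠ 0 := by exact_mod_cast ne_small p 9 0 2 h3 (by norm_num)
    exact neg_ne_zero.mpr this
  have h27 := mul_inv_cancel₀ n27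
  have ht : (27 : ZMod p)⁻¹ ≠ 0 := inv_ne_zero n27
  set t : ZMod p := (27 : ZMod p)⁻¹
  have hodd : ringChar (ZMod p) ≠ 2 := by
    rw [ZMod.ringChar_zmod_n]
    omega
  have e1 : ∀ u : ZMod p, quadraticChar (ZMod p) ((1 - u) ^ 2 - 4 * t * u ^ 3) =
      quadraticChar (ZMod p) t * (quadraticChar (ZMod p) (3 - 4 * u) -
        if u = 3 then quadraticChar (ZMod p) (-9) else 0) := by
    intro u
    have h1 : (1 - u) ^ 2 - 4 * t * u ^ 3 = t * ((u - 3) ^ 2 * (3 - 4 * u)) := by
      linear_combination (-(1 - u) ^ 2) * h27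
    rw [h1, map_mul]
    congr 1
    split_ifs with hu
    · rw [hu]
      norm_num
    · rw [map_mul, map_pow, quadraticChar_sq_one (sub_ne_zero.mpr hu), one_mul, sub_zero]
  unfold tr
  rw [sum_congr rfl fun u _ => e1 u, ← mul_sum, sum_sub_distrib,
    sum_ite_eq' univ (3 : ZMod p), if_pos (mem_univ _)]
  have e2 : ∑ u : ZMod p, quadraticChar (ZMod p) (3 - 4 * u) = 0 := by
    rw [← quadraticChar_sum_zero hodd]
    refine Fintype.sum_equiv ((Equiv.mulLeft₀ 4 n4).trans (Equiv.subLeft 3)) _ _ fun u => ?_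
    rw [Equiv.trans_apply, Equiv.mulLeft₀_apply, Equiv.subLeft_apply]
  rw [e2]
  have h1 := quadraticChar_sq_one ht
  have h2 := quadraticChar_sq_one n9
  linear_combination (quadraticChar (ZMod p) t) ^ 2 * h2 + h1

theorem FF_node (h3 : 3 < p) (T : R p) (hT : 27 * T = 1) : FF p T ^ 2 = 1 := by
  have h := clausen_eval p h3 (R p) T
  unfold FF
  rw [h, sum_eq_single 0]
  · simp [c_zero]
  · intro k _ hk
    have : T * (1 - 27 * T) = 0 := by rw [hT]; ring
    rw [this, zero_pow hk, mul_zero]
  · intro h0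
    exact absurd (mem_range.mpr hp.out.pos) h0

/-- **The value of the logarithmic companion at the nodal fibre.** -/
theorem gam_node (h3 : 3 < p) (e3 : ℤ) (he3 : (3 : ℤ) ^ p = 3 + p * e3) :
    ∑ k ∈ range p, gam p k * ((27 : ZMod p)⁻¹) ^ k =
      (e3 : ZMod p) * ∑ k ∈ range p, cK p k * ((27 : ZMod p)⁻¹) ^ k := by
  have hpp := p_sq p
  have n27 := n27 p h3
  have hu27 : IsUnit (27 : R p) := by
    apply isUnit_of_red
    rw [map_ofNat]
    exact n27
  obtain ⟨T, hT⟩ := hu27.exists_right_inv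
  have hTr : red p T = (27 : ZMod p)⁻¹ := by
    have := congrArg (red p) hT
    rw [map_mul, map_ofNat, map_one] at this
    rw [eq_comm, inv_eq_iff_eq_inv, eq_comm, inv_eq_iff_eq_inv]
    exact eq_inv_of_mul_eq_one_right this
  have hT0 : red p T ≠ 0 := by
    rw [hTr]
    exact inv_ne_zero n27
  have he3R : (3 : R p) ^ p = 3 + p * e3 := by
    have := congrArg (Int.cast (R := R p)) he3
    push_cast at this
    exact this
  have h27p : (27 : R p) ^ p = 27 * (1 + p * e3) := by
    have h1 : (27 : R p) ^ p = ((3 : R p) ^ p) ^ 3 := by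
      rw [← pow_mul, mul_comm p 3, pow_mul]
      norm_num
    rw [h1, he3R]
    linear_combination (9 * (e3 : R p) ^ 2 + p * (e3 : R p) ^ 3) * hpp
  have hq : T ^ p = T * (1 + p * (-(e3 : R p))) := by
    have h1 : (27 : R p) ^ p * T ^ p = 1 := by rw [← mul_pow, hT, one_pow]
    rw [h27p] at h1
    have hu : IsUnit ((27 : R p) * (1 + p * e3)) := IsUnit.of_mul_eq_one _ h1
    apply hu.mul_left_cancel
    rw [h1]
    linear_combination (-(1 - (p : R p) ^ 2 * e3 ^ 2)) * hT + (e3 : R p) ^ 2 * hpp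
  have htr := tr_point p h3 T _ hT0 hq
  have hsq := tr_node p h3
  rw [← hTr] at hsq
  have hsq' : ((tr p (red p T) : ℤ) : R p) ^ 2 = 1 := by
    have := congrArg (Int.cast (R := R p)) hsq
    push_cast at this
    exact this
  have hF1 := FF_node p h3 T hT
  rw [htr] at hsq'
  have hw := wron_eval p h3 (red p T)
  have hd := der_at p h3
  rw [← hTr] at hd ⊢
  have h0 : 1 - 27 * red p T = 0 := by
    rw [hTr, mul_inv_cancel₀ n27, sub_self]
  rw [h0, zero_pow (by omega)] at hw
  have hF := red_FF p T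
  have hh1 : (∑ k ∈ range p, cK p k * (red p T) ^ k) ^ 2 = 1 := by
    rw [← hF, ← map_pow, hF1, map_one]
  rw [map_neg, red_int, hF] at hsq'
  set h := ∑ k ∈ range p, cK p k * (red p T) ^ k with hh
  set g := ∑ k ∈ range p, gam p k * (red p T) ^ k
  set θh := ∑ k ∈ range p, cK p k * k * (red p T) ^ k
  set θg := ∑ k ∈ range p, gam p k * k * (red p T) ^ k
  have hz : (p : R p) * (2 * FF p T * lift p (h + θg + -(e3 : ZMod p) * θh)) = p * 0 := by
    linear_combination hsq' - hF1 - (lift p (h + θg + -(e3 : ZMod p) * θh)) ^ 2 * hpp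
  have hz' := red_cancel p _ _ hz
  rw [map_mul, map_mul, map_ofNat, hF, red_lift, map_zero] at hz'
  have n2 : (2 : ZMod p) ≠ 0 := by exact_mod_cast ne_small p 2 1 0 h3 (by norm_num)
  have n6 : (6 : ZMod p) ≠ 0 := by exact_mod_cast ne_small p 6 1 1 h3 (by norm_num)
  have h5 : h * (h + θg + -(e3 : ZMod p) * θh) = 0 := by
    rcases mul_eq_zero.mp hz' with h6 | h6
    · rcases mul_eq_zero.mp h6 with h7 | h7
      · exact absurd h7 n2
      · rw [h7, zero_mul]
    · rw [h6, mul_zero]
  have h6 : θh * (g - e3 * h) = 0 := by linear_combination h5 - hw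
  have hθ : θh ≠ 0 := by
    rw [hd]
    refine mul_ne_zero (neg_ne_zero.mpr (mul_ne_zero n6 hT0)) ?_
    intro h7
    rw [h7] at hh1
    exact one_ne_zero (by linear_combination -hh1 : (1 : ZMod p) = 0)
  exact sub_eq_zero.mp ((mul_eq_zero.mp h6).resolve_left hθ)

end Pool.Agent.T9h95.S3
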