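import Pool.Agent.T9h95.S3.Frob

set_option autoImplicit false

/-!
# The logarithmic companion of the quadratic transformation modulo `p`
-/

namespace Pool.Agent.T9h95.S3

open Finset Polynomial

variable (p : ℕ) [hp : Fact p.Prime]

theorem MM_mul (f y : (ZMod p)[X]) : MM p (f * y) = f * MM p y +
    derivative (X * (1 - X) * (2 + X) * (3 + X) * derivative f) * y +
    2 * (X * (1 - X) * (2 + X) * (3 + X) * derivative f) * derivative y := by
  obtain ⟨P, hP⟩ : ∃ P : (ZMod p)[X], P = X * (1 - X) * (2 + X) * (3 + X) := ⟨_, rfl⟩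
  unfold MM
  rw [← hP]
  simp only [derivative_mul, derivative_add]
  ring

theorem dXP : derivative ((X : (ZMod p)[X]) ^ p) = 0 := by
  rw [derivative_X_pow, ZMod.natCast_self, C_0, zero_mul]

theorem MM_w3 (y : (ZMod p)[X]) (hy : MM p y = 0) : MM p (w p 3 * y) =
    3 * ((-1 - 2 * X) * (X - X ^ p) + (1 - X) * (2 + X)) * y +
      6 * ((1 - X) * (2 + X) * (X - X ^ p)) * derivative y := by
  have h := w_der p 3
  have h3 : (C ((3 : ℕ) : ZMod p) : (ZMod p)[X]) = 3 := by
    push_cast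
    rw [map_ofNat]
  rw [h3] at h
  have e : X * (1 - X) * (2 + X) * (3 + X) * derivative (w p 3) =
      3 * (1 - X) * (2 + X) * (X - X ^ p) := by
    linear_combination (1 - X) * (2 + X) * h
  rw [MM_mul, hy, e]
  have hx := dXP p
  obtain ⟨XP, hXP⟩ : ∃ P : (ZMod p)[X], P = X ^ p := ⟨_, rfl⟩
  rw [← hXP] at hx ⊢
  simp only [derivative_mul, derivative_add, derivative_sub, derivative_one, derivative_X,
    derivative_ofNat, hx]
  ring

theorem MM_w1 (y : (ZMod p)[X]) (hy : MM p y = 0) : (1 + X) ^ 2 * MM p (w p 1 * y) =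
    ((1 + X) * (((-1 - 2 * X) * (3 + X) + (1 - X) * (2 + X)) * (X - X ^ p) +
      (1 - X) * (2 + X) * (3 + X)) - (1 - X) * (2 + X) * (3 + X) * (X - X ^ p)) * y +
      2 * (1 + X) * ((1 - X) * (2 + X) * (3 + X) * (X - X ^ p)) * derivative y := by
  have h := w_der p 1
  have h1 : (C ((1 : ℕ) : ZMod p) : (ZMod p)[X]) = 1 := by
    push_cast
    rw [C_1]
  rw [h1] at h
  rw [MM_mul, hy]
  obtain ⟨V, hV⟩ : ∃ V, V = X * (1 - X) * (2 + X) * (3 + X) * derivative (w p 1) := ⟨_, rfl⟩
  rw [← hV]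
  have e : (1 + X) * V = (1 - X) * (2 + X) * (3 + X) * (X - X ^ p) := by
    rw [hV]
    linear_combination (1 - X) * (2 + X) * (3 + X) * h
  have hx := dXP p
  obtain ⟨XP, hXP⟩ : ∃ P : (ZMod p)[X], P = X ^ p := ⟨_, rfl⟩
  rw [← hXP] at hx e ⊢
  have e2 := congrArg derivative e
  simp only [derivative_mul, derivative_add, derivative_sub, derivative_one, derivative_X,
    derivative_ofNat, hx] at e2
  linear_combination ((1 + X) * y) * e2 + (2 * (1 + X) * derivative y - y) * e

/-- the relation between the logarithmic companions -/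
noncomputable def DD (e2 e3 : ZMod p) : (ZMod p)[X] :=
  (2 * (2 + X ^ p)) * SA p (2 * p - 1) (gam p) 0 - (2 * (1 - X ^ p)) * SB p (gam p) 0 +
    (2 * (2 * X ^ p + 1)) * (w p 3 * SB p (cK p) 0) -
    (6 * (2 + X ^ p)) * (w p 1 * SB p (cK p) 0) -
    (C (e2 + 2 * e3) * ((2 + X ^ p) * (1 + X ^ p))) * SB p (cK p) 0 +
    (C (2 * (e2 + e3)) * (1 - X ^ p)) * SB p (cK p) 0

theorem SA_shift (h3 : 3 < p) : SA p (2 * p - 1) (cK p) 0 = (1 + X ^ p) * SA p (p - 1) (cK p) 0 := by
  have h1 : (1 + X ^ p : (ZMod p)[X]) = (1 + X) ^ p := by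
    have := frobK p 1
    push_cast at this
    rw [C_1] at this
    exact this.symm
  rw [h1]
  unfold SA S
  rw [mul_sum]
  refine sum_congr rfl fun k hk => ?_
  have hk' : k < p := mem_range.mp hk
  by_cases hE : p - 1 < 3 * k
  · rw [cK_supp p k hk' hE]
    simp
  · rw [show 2 * p - 1 - 3 * k = p + (p - 1 - 3 * k) by omega, pow_add (1 + X)]
    ring

theorem MM_DD (h3 : 3 < p) (e2 e3 : ZMod p) : MM p (DD p e2 e3) = 0 := by
  have hx := dXP p
  have hB := MM_B p h3
  have hB' := MM_B' p h3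
  have hA' := MM_A' p h3 (2 * p - 1) (castE2 p) (fun k hk h => cK_supp2 p k hk h)
    (fun k hk h => gam_supp p k hk h)
  rw [SA_shift p h3, trans2 p h3, derivative_mul, derivative_add, derivative_one, hx] at hA'
  have hw3 := MM_w3 p _ hB
  have hw1 := MM_w1 p _ hB
  unfold DD
  rw [MM_add, MM_sub, MM_sub, MM_add, MM_sub]
  rw [MM_smul p (2 * (2 + X ^ p)) _ (by
      simp only [derivative_mul, derivative_add, derivative_ofNat, hx]; ring),
    MM_smul p (2 * (1 - X ^ p)) _ (by
      simp only [derivative_mul, derivative_sub, derivative_one, derivative_ofNat, hx]; ring),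
    MM_smul p (2 * (2 * X ^ p + 1)) _ (by
      simp only [derivative_mul, derivative_add, derivative_one, derivative_ofNat, hx]; ring),
    MM_smul p (6 * (2 + X ^ p)) _ (by
      simp only [derivative_mul, derivative_add, derivative_ofNat, hx]; ring),
    MM_smul p (C (e2 + 2 * e3) * ((2 + X ^ p) * (1 + X ^ p))) _ (by
      simp only [derivative_mul, derivative_add, derivative_ofNat, derivative_one, derivative_C, hx]
      ring),
    MM_smul p (C (2 * (e2 + e3)) * (1 - X ^ p)) _ (by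
      simp only [derivative_mul, derivative_sub, derivative_one, derivative_C, hx]; ring)]
  rw [hB, hB', hw3]
  obtain ⟨XP, hXP⟩ : ∃ P : (ZMod p)[X], P = X ^ p := ⟨_, rfl⟩
  rw [← hXP] at hA' hw1 ⊢
  set y := SB p (cK p) 0
  apply mul_left_cancel₀ (pow_ne_zero 2 (oneAdd_ne p))
  linear_combination 2 * (2 + XP) * hA' - 6 * (2 + XP) * hw1

end Pool.Agent.T9h95.S3
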