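import Pool.Agent.T9h95.S3.Log

set_option autoImplicit false

/-!
# The logarithmic companion of the quadratic transformation modulo `p`: conclusion
-/

namespace Pool.Agent.T9h95.S3

open Finset Polynomial

variable (p : ℕ) [hp : Fact p.Prime]

theorem gam_sum_zero : ∑ k ∈ range p, gam p k * (0 : ZMod p) ^ k = 0 := by
  rw [sum_at_zero, gam_zero]

theorem cK_sum_zero : ∑ k ∈ range p, cK p k * (0 : ZMod p) ^ k = 1 := by
  rw [sum_at_zero]
  simp [cK, c_zero]

theorem DD_eval (e2 e3 x : ZMod p) : (DD p e2 e3).eval x =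
    (2 * (2 + x)) * (SA p (2 * p - 1) (gam p) 0).eval x - (2 * (1 - x)) * (SB p (gam p) 0).eval x +
    (2 * (2 * x + 1)) * ((w p 3).eval x * (SB p (cK p) 0).eval x) -
    (6 * (2 + x)) * ((w p 1).eval x * (SB p (cK p) 0).eval x) -
    ((e2 + 2 * e3) * ((2 + x) * (1 + x))) * (SB p (cK p) 0).eval x +
    ((2 * (e2 + e3)) * (1 - x)) * (SB p (cK p) 0).eval x := by
  unfold DD
  simp only [eval_add, eval_sub, eval_mul, eval_pow, eval_X, eval_ofNat, eval_one, eval_C,
    ZMod.pow_card]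

theorem two_pow_E (h3 : 3 < p) (x : ZMod p) (hx : x ≠ 0) : x ^ (2 * p - 1) = x := by
  rw [show 2 * p - 1 = (p - 1) + (p - 1) + 1 by omega, pow_succ, pow_add,
    ZMod.pow_card_sub_one_eq_one hx]
  ring

theorem DD_deg (h3 : 3 < p) (e2 e3 : ZMod p) : (DD p e2 e3).natDegree ≤ 3 * p - 1 := by
  have a1 := deg_SA p (2 * p - 1) (gam p) (fun k hk h => gam_supp p k hk h) 0
  have a2 := deg_SB p (2 * p - 1) (gam p) (fun k hk h => gam_supp p k hk h) 0
  have a3 := deg_SB p (p - 1) (cK p) (fun k hk h => cK_supp p k hk h) 0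
  have a4 := w_deg p 3
  have a5 := w_deg p 1
  have hX : ((X : (ZMod p)[X]) ^ p).natDegree ≤ p := natDegree_X_pow_le p
  have d1 : (2 * (2 + X ^ p) : (ZMod p)[X]).natDegree ≤ p := by
    refine (natDegree_mul_le).trans ?_
    have := natDegree_add_le (2 : (ZMod p)[X]) (X ^ p)
    simp only [natDegree_ofNat] at this ⊢
    omega
  have d2 : (2 * (1 - X ^ p) : (ZMod p)[X]).natDegree ≤ p := by
    refine (natDegree_mul_le).trans ?_
    have := natDegree_sub_le (1 : (ZMod p)[X]) (X ^ p)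
    simp only [natDegree_ofNat, natDegree_one] at this ⊢
    omega
  have d3 : (2 * (2 * X ^ p + 1) : (ZMod p)[X]).natDegree ≤ p := by
    refine (natDegree_mul_le).trans ?_
    have := natDegree_add_le (2 * X ^ p : (ZMod p)[X]) 1
    have h' := natDegree_mul_le (p := (2 : (ZMod p)[X])) (q := X ^ p)
    simp only [natDegree_ofNat, natDegree_one] at this h' ⊢
    omega
  have d4 : (6 * (2 + X ^ p) : (ZMod p)[X]).natDegree ≤ p := by
    refine (natDegree_mul_le).trans ?_
    have := natDegree_add_le (2 : (ZMod p)[X]) (X ^ p)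
    simp only [natDegree_ofNat] at this ⊢
    omega
  have d5 : (C (e2 + 2 * e3) * ((2 + X ^ p) * (1 + X ^ p)) : (ZMod p)[X]).natDegree ≤ 2 * p := by
    refine (natDegree_C_mul_le _ _).trans ?_
    refine (natDegree_mul_le).trans ?_
    have := natDegree_add_le (2 : (ZMod p)[X]) (X ^ p)
    have h' := natDegree_add_le (1 : (ZMod p)[X]) (X ^ p)
    simp only [natDegree_ofNat, natDegree_one] at this h'
    omega
  have d6 : (C (2 * (e2 + e3)) * (1 - X ^ p) : (ZMod p)[X]).natDegree ≤ p := by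
    refine (natDegree_C_mul_le _ _).trans ?_
    have := natDegree_sub_le (1 : (ZMod p)[X]) (X ^ p)
    simp only [natDegree_one] at this
    omega
  have f1 : ((2 * (2 + X ^ p)) * SA p (2 * p - 1) (gam p) 0).natDegree ≤ 3 * p - 1 := by
    refine (natDegree_mul_le).trans ?_
    omega
  have f2 : ((2 * (1 - X ^ p)) * SB p (gam p) 0).natDegree ≤ 3 * p - 1 := by
    refine (natDegree_mul_le).trans ?_
    omega
  have f3 : ((2 * (2 * X ^ p + 1)) * (w p 3 * SB p (cK p) 0)).natDegree ≤ 3 * p - 1 := by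
    refine (natDegree_mul_le).trans ?_
    have := natDegree_mul_le (p := w p 3) (q := SB p (cK p) 0)
    omega
  have f4 : ((6 * (2 + X ^ p)) * (w p 1 * SB p (cK p) 0)).natDegree ≤ 3 * p - 1 := by
    refine (natDegree_mul_le).trans ?_
    have := natDegree_mul_le (p := w p 1) (q := SB p (cK p) 0)
    omega
  have f5 : ((C (e2 + 2 * e3) * ((2 + X ^ p) * (1 + X ^ p))) * SB p (cK p) 0).natDegree ≤
      3 * p - 1 := by
    refine (natDegree_mul_le).trans ?_
    omega
  have f6 : ((C (2 * (e2 + e3)) * (1 - X ^ p)) * SB p (cK p) 0).natDegree ≤ 3 * p - 1 := by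
    refine (natDegree_mul_le).trans ?_
    omega
  unfold DD
  refine (natDegree_add_le _ _).trans (max_le ?_ f6)
  refine (natDegree_sub_le _ _).trans (max_le ?_ f5)
  refine (natDegree_sub_le _ _).trans (max_le ?_ f4)
  refine (natDegree_add_le _ _).trans (max_le ?_ f3)
  exact (natDegree_sub_le _ _).trans (max_le f1 f2)

/-- **The logarithmic companion of the quadratic transformation.** -/
theorem DD_zero (h3 : 3 < p) (e2 e3 : ℤ) (he2 : (2 : ℤ) ^ p = 2 + p * e2)
    (he3 : (3 : ℤ) ^ p = 3 + p * e3)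
    (hg : ∑ k ∈ range p, gam p k * ((27 : ZMod p)⁻¹) ^ k =
      (e3 : ZMod p) * ∑ k ∈ range p, cK p k * ((27 : ZMod p)⁻¹) ^ k) :
    DD p (e2 : ZMod p) (e3 : ZMod p) = 0 := by
  have hodd : Odd p := hp.out.odd_of_ne_two (by omega)
  have hM := MM_DD p h3 (e2 : ZMod p) (e3 : ZMod p)
  have hdeg := DD_deg p h3 (e2 : ZMod p) (e3 : ZMod p)
  have n108 : (108 : ZMod p) ≠ 0 := by exact_mod_cast ne_small p 108 2 3 h3 (by norm_num)
  have n27 : (27 : ZMod p) ≠ 0 := by exact_mod_cast ne_small p 27 0 3 h3 (by norm_num)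
  have n2 : (2 : ZMod p) ≠ 0 := by exact_mod_cast ne_small p 2 1 0 h3 (by norm_num)
  have z0 : (DD p (e2 : ZMod p) (e3 : ZMod p)).eval 0 = 0 := by
    have a3 := w_eval p 3 0 e3 (by
      push_cast
      rw [zero_pow hp.out.ne_zero]
      linear_combination he3)
    have a1 := w_eval p 1 0 0 (by
      push_cast
      rw [zero_pow hp.out.ne_zero]
      simp)
    rw [Int.cast_zero] at a1 a3
    rw [DD_eval, a1, a3, eval_SA p (2 * p - 1) (gam p) (fun k hk h => gam_supp p k hk h) 0 0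
      (by ring) h3, eval_SB, eval_SB]
    have : (108 : ZMod p)⁻¹ * 0 ^ 2 * (3 + 0) = 0 := by ring
    rw [this, gam_sum_zero, cK_sum_zero]
    ring
  have z3 : (DD p (e2 : ZMod p) (e3 : ZMod p)).eval (-3) = 0 := by
    have a3 := w_eval p 3 (-3) e3 (by
      push_cast
      rw [zero_pow hp.out.ne_zero, hodd.neg_pow]
      linear_combination he3)
    have a1 := w_eval p 1 (-3) (e3 - e2) (by
      push_cast
      rw [hodd.neg_pow, hodd.neg_pow]
      linear_combination he3 - he2)
    push_cast at a1 a3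
    rw [DD_eval, a1, a3, eval_SA p (2 * p - 1) (gam p) (fun k hk h => gam_supp p k hk h) (-3) 0
      (by ring) h3, eval_SB, eval_SB]
    have : (108 : ZMod p)⁻¹ * (-3) ^ 2 * (3 + -3) = 0 := by ring
    rw [this, gam_sum_zero, cK_sum_zero]
    ring
  have z1 : (DD p (e2 : ZMod p) (e3 : ZMod p)).eval 1 = 0 := by
    have a3 := w_eval p 3 1 (4 * e2 + p * e2 ^ 2) (by
      have : (4 : ℤ) ^ p = ((2 : ℤ) ^ p) ^ 2 := by
        rw [← pow_mul, mul_comm, pow_mul]; norm_num
      push_cast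
      rw [this, he2, one_pow]
      ring)
    have a1 := w_eval p 1 1 e2 (by
      push_cast
      rw [he2, one_pow]
      ring)
    push_cast at a1 a3
    rw [ZMod.natCast_self] at a3
    have n27' := mul_inv_cancel₀ n27
    have ht : (54 : ZMod p) * 27⁻¹ * (1 + 1) ^ 3 = 1 * (3 + 1) ^ 2 := by
      linear_combination 16 * n27'
    have ht2 : (108 : ZMod p)⁻¹ * 1 ^ 2 * (3 + 1) = 27⁻¹ := by
      apply mul_left_cancel₀ n108
      have := mul_inv_cancel₀ n108
      linear_combination 4 * this - 4 * n27'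
    rw [DD_eval, a1, a3, eval_SA p (2 * p - 1) (gam p) (fun k hk h => gam_supp p k hk h) 1 _
      ht h3, eval_SB, eval_SB, ht2, hg, show (1 : ZMod p) + 1 = 2 by norm_num, two_pow_E p h3 2 n2]
    ring
  have b0 := dvd0 p h3 _ hM z0
  have b1 := dvd1 p h3 _ hM z1
  have b3 := dvd3 p h3 _ hM z3
  have c01 : IsCoprime ((X - C (0 : ZMod p)) ^ p) ((X - C (1 : ZMod p)) ^ p) := by
    apply IsCoprime.pow
    apply isCoprime_X_sub_C_of_isUnit_sub
    simp
  have c03 : IsCoprime ((X - C (0 : ZMod p)) ^ p) ((X - C (-3 : ZMod p)) ^ p) := by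
    apply IsCoprime.pow
    apply isCoprime_X_sub_C_of_isUnit_sub
    have := ne_small p 3 0 1 h3 (by norm_num)
    rw [isUnit_iff_ne_zero]
    intro h
    apply this
    push_cast
    linear_combination h
  have c13 : IsCoprime ((X - C (1 : ZMod p)) ^ p) ((X - C (-3 : ZMod p)) ^ p) := by
    apply IsCoprime.pow
    apply isCoprime_X_sub_C_of_isUnit_sub
    have := ne_small p 4 2 0 h3 (by norm_num)
    rw [isUnit_iff_ne_zero]
    intro h
    apply this
    push_cast
    linear_combination h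
  have hd := (IsCoprime.mul_left c03 c13).mul_dvd (c01.mul_dvd b0 b1) b3
  by_contra hne
  have h1 := natDegree_le_of_dvd hd hne
  have m0 : (X - C (0 : ZMod p)) ^ p ≠ 0 := pow_ne_zero _ (X_sub_C_ne_zero _)
  have m1 : (X - C (1 : ZMod p)) ^ p ≠ 0 := pow_ne_zero _ (X_sub_C_ne_zero _)
  have m3 : (X - C (-3 : ZMod p)) ^ p ≠ 0 := pow_ne_zero _ (X_sub_C_ne_zero _)
  rw [natDegree_mul (mul_ne_zero m0 m1) m3, natDegree_mul m0 m1, natDegree_pow, natDegree_pow,
    natDegree_pow, natDegree_X_sub_C, natDegree_X_sub_C, natDegree_X_sub_C] at h1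
  omega

end Pool.Agent.T9h95.S3
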