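import Pool.Agent.T9h95.S3.Sums

set_option autoImplicit false

/-!
# The two pull-backs of the quadratic transformation of signature 3
-/

namespace Pool.Agent.T9h95.S3

open Finset Polynomial

variable (p : ℕ) [hp : Fact p.Prime]

/-- the second order operator -/
noncomputable def MM (y : (ZMod p)[X]) : (ZMod p)[X] :=
  derivative (X * (1 - X) * (2 + X) * (3 + X) * derivative y) - 2 * X * (2 + X) * y

theorem MM_add (y z : (ZMod p)[X]) : MM p (y + z) = MM p y + MM p z := by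
  unfold MM
  rw [derivative_add, mul_add, derivative_add]
  ring

theorem MM_sub (y z : (ZMod p)[X]) : MM p (y - z) = MM p y - MM p z := by
  unfold MM
  rw [derivative_sub, mul_sub, derivative_sub]
  ring

theorem MM_smul (a y : (ZMod p)[X]) (ha : derivative a = 0) : MM p (a * y) = a * MM p y := by
  have e : ∀ z : (ZMod p)[X], derivative (a * z) = a * derivative z := fun z => by
    rw [derivative_mul, ha]; ring
  unfold MM
  rw [e, show X * (1 - X) * (2 + X) * (3 + X) * (a * derivative y) =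
    a * (X * (1 - X) * (2 + X) * (3 + X) * derivative y) by ring]
  rw [e]
  ring

/-- `x²(3+x)/108` -/
noncomputable def PB : (ZMod p)[X] := C ((108 : ZMod p)⁻¹) * X ^ 2 * (3 + X)

/-- `x(3+x)²/54` -/
noncomputable def PA : (ZMod p)[X] := C ((54 : ZMod p)⁻¹) * X * (3 + X) ^ 2

theorem ne_small (n a b : ℕ) (h3 : 3 < p) (hn : n = 2 ^ a * 3 ^ b) : ((n : ℕ) : ZMod p) ≠ 0 := by
  rw [Ne, ZMod.natCast_eq_zero_iff, hn, hp.out.dvd_mul]
  rintro (h | h)
  · have := Nat.le_of_dvd (by norm_num) (hp.out.dvd_of_dvd_pow h)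
    omega
  · have := Nat.le_of_dvd (by norm_num) (hp.out.dvd_of_dvd_pow h)
    omega

theorem h108 (h3 : 3 < p) : (108 : (ZMod p)[X]) * C ((108 : ZMod p)⁻¹) = 1 := by
  have h := ne_small p 108 2 3 h3 (by norm_num)
  have h' : (108 : ZMod p) ≠ 0 := by exact_mod_cast h
  rw [show (108 : (ZMod p)[X]) = C 108 by rw [map_ofNat], ← C_mul, mul_inv_cancel₀ h', C_1]

theorem h54 (h3 : 3 < p) : (54 : (ZMod p)[X]) * C ((54 : ZMod p)⁻¹) = 1 := by
  have h := ne_small p 54 1 3 h3 (by norm_num)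
  have h' : (54 : ZMod p) ≠ 0 := by exact_mod_cast h
  rw [show (54 : (ZMod p)[X]) = C 54 by rw [map_ofNat], ← C_mul, mul_inv_cancel₀ h', C_1]

theorem dPB : derivative (PB p) = C ((108 : ZMod p)⁻¹) * (2 * X * (3 + X) + X ^ 2) := by
  unfold PB
  simp only [derivative_mul, derivative_C, derivative_X_pow, derivative_add, derivative_X,
    derivative_ofNat, Nat.cast_ofNat, map_ofNat]
  ring

theorem dPA : derivative (PA p) = C ((54 : ZMod p)⁻¹) * ((3 + X) ^ 2 + 2 * X * (3 + X)) := by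
  unfold PA
  simp only [derivative_mul, derivative_C, derivative_pow, derivative_add, derivative_X,
    derivative_ofNat, Nat.cast_ofNat, map_ofNat]
  ring

theorem threeAdd_ne : (3 + X : (ZMod p)[X]) ≠ 0 := by
  intro h
  have := congrArg (fun f : (ZMod p)[X] => f.coeff 1) h
  simp [coeff_X] at this

theorem oneAdd_ne : (1 + X : (ZMod p)[X]) ≠ 0 := by
  intro h
  have := congrArg (fun f : (ZMod p)[X] => f.eval 0) h
  simp at this

/-! ### The second pull-back -/

/-- the sums of the second pull-back -/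
noncomputable def SB (u : ℕ → ZMod p) (j : ℕ) : (ZMod p)[X] := S p (3 * p) (PB p) 1 u j

theorem b_deriv (h3 : 3 < p) (u : ℕ → ZMod p) (j : ℕ) :
    X * (3 + X) * derivative (SB p u j) = 3 * (2 + X) * SB p u (j + 1) := by
  have h := S_deriv p (3 * p) (PB p) 1 u (fun k hk hk2 => by omega) j
  rw [dPB, derivative_one] at h
  have h' := h108 p h3
  unfold PB at h
  unfold SB PB
  apply mul_left_cancel₀ (X_ne_zero (R := ZMod p))
  linear_combination 108 * h - (X ^ 2 * (3 + X) *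
    derivative (S p (3 * p) (C ((108 : ZMod p)⁻¹) * X ^ 2 * (3 + X)) 1 u j) -
    (2 * X * (3 + X) + X ^ 2) * S p (3 * p) (C ((108 : ZMod p)⁻¹) * X ^ 2 * (3 + X)) 1 u (j + 1)) * h'

theorem b_contig (h3 : 3 < p) : 9 * (1 - X) * (2 + X) ^ 2 * SB p (cK p) 2 =
    X ^ 2 * (3 + X) * (9 * SB p (cK p) 1 + 2 * SB p (cK p) 0) := by
  have h := S_contig p h3 (3 * p) (PB p) 1 (fun k hk hk2 => by omega)
  have h' := h108 p h3
  change 1 ^ 3 * SB p (cK p) 2 = PB p * (27 * SB p (cK p) 2 + 27 * SB p (cK p) 1 +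
    6 * SB p (cK p) 0) at h
  unfold PB at h
  linear_combination 36 * h + X ^ 2 * (3 + X) * (9 * SB p (cK p) 2 + 9 * SB p (cK p) 1 +
    2 * SB p (cK p) 0) * h'

theorem b_contig' (h3 : 3 < p) : 9 * (1 - X) * (2 + X) ^ 2 * SB p (gam p) 2 =
    X ^ 2 * (3 + X) * (9 * SB p (gam p) 1 + 2 * SB p (gam p) 0 + 18 * SB p (cK p) 1 +
      9 * SB p (cK p) 0) - 72 * SB p (cK p) 1 := by
  have h := S_contig' p h3 (3 * p) (PB p) 1 (fun k hk hk2 => by omega) (fun k hk hk2 => by omega)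
  have h' := h108 p h3
  change 1 ^ 3 * (SB p (gam p) 2 + 2 * SB p (cK p) 1) = PB p * (27 * SB p (gam p) 2 +
    27 * SB p (gam p) 1 + 6 * SB p (gam p) 0 + 54 * SB p (cK p) 1 + 27 * SB p (cK p) 0) at h
  unfold PB at h
  linear_combination 36 * h + X ^ 2 * (3 + X) * (9 * SB p (gam p) 2 + 9 * SB p (gam p) 1 +
    2 * SB p (gam p) 0 + 18 * SB p (cK p) 1 + 9 * SB p (cK p) 0) * h'

theorem dW : derivative (3 * ((1 - X) * (2 + X) ^ 2) : (ZMod p)[X]) = -9 * X * (2 + X) := by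
  simp only [derivative_mul, derivative_pow, derivative_add, derivative_sub, derivative_one,
    derivative_X, derivative_ofNat, Nat.cast_ofNat, map_ofNat]
  ring

theorem MM_B (h3 : 3 < p) : MM p (SB p (cK p) 0) = 0 := by
  have e0 := b_deriv p h3 (cK p) 0
  have e1 := b_deriv p h3 (cK p) 1
  have ct := b_contig p h3
  rw [show (1 + 1 : ℕ) = 2 from rfl] at e1
  rw [show (0 + 1 : ℕ) = 1 from rfl] at e0
  have hW := dW p
  unfold MM
  rw [show X * (1 - X) * (2 + X) * (3 + X) * derivative (SB p (cK p) 0) =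
    3 * ((1 - X) * (2 + X) ^ 2) * SB p (cK p) 1 by linear_combination (1 - X) * (2 + X) * e0]
  rw [derivative_mul, hW]
  apply mul_left_cancel₀ (mul_ne_zero (X_ne_zero (R := ZMod p)) (threeAdd_ne p))
  linear_combination 3 * (1 - X) * (2 + X) ^ 2 * e1 + (2 + X) * ct

theorem MM_B' (h3 : 3 < p) : MM p (SB p (gam p) 0) =
    -6 * (1 - X) * (2 + X) ^ 2 * derivative (SB p (cK p) 0) + 9 * X * (2 + X) * SB p (cK p) 0 := by
  have e0 := b_deriv p h3 (gam p) 0
  have e0c := b_deriv p h3 (cK p) 0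
  have e1 := b_deriv p h3 (gam p) 1
  have ct := b_contig' p h3
  rw [show (1 + 1 : ℕ) = 2 from rfl] at e1
  rw [show (0 + 1 : ℕ) = 1 from rfl] at e0 e0c
  have hW := dW p
  unfold MM
  rw [show X * (1 - X) * (2 + X) * (3 + X) * derivative (SB p (gam p) 0) =
    3 * ((1 - X) * (2 + X) ^ 2) * SB p (gam p) 1 by linear_combination (1 - X) * (2 + X) * e0]
  rw [derivative_mul, hW]
  apply mul_left_cancel₀ (mul_ne_zero (X_ne_zero (R := ZMod p)) (threeAdd_ne p))
  linear_combination 3 * (1 - X) * (2 + X) ^ 2 * e1 + (2 + X) * ct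
    + 6 * (1 - X) * (2 + X) ^ 2 * e0c

/-! ### The first pull-back -/

/-- the sums of the first pull-back -/
noncomputable def SA (E : ℕ) (u : ℕ → ZMod p) (j : ℕ) : (ZMod p)[X] := S p E (PA p) (1 + X) u j

theorem a_deriv (h3 : 3 < p) (E : ℕ) (hE : (E : ZMod p) = -1) (u : ℕ → ZMod p)
    (hu : ∀ k, k < p → E < 3 * k → u k = 0) (j : ℕ) :
    X * (3 + X) * (1 + X) * derivative (SA p E u j) =
      3 * (1 - X) * SA p E u (j + 1) - X * (3 + X) * SA p E u j := by
  have h := S_deriv p E (PA p) (1 + X) u hu j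
  rw [dPA, derivative_add, derivative_one, derivative_X, hE, C_neg, C_1] at h
  have h' := h54 p h3
  change PA p * (1 + X) * derivative (SA p E u j) = (C ((54 : ZMod p)⁻¹) * ((3 + X) ^ 2 +
    2 * X * (3 + X)) * (1 + X) - 3 * PA p * (0 + 1)) * SA p E u (j + 1) +
    -1 * PA p * (0 + 1) * SA p E u j at h
  unfold PA at h
  apply mul_left_cancel₀ (threeAdd_ne p)
  linear_combination 54 * h - (X * (3 + X) ^ 2 * (1 + X) * derivative (SA p E u j) -
    (((3 + X) ^ 2 + 2 * X * (3 + X)) * (1 + X) - 3 * X * (3 + X) ^ 2) * SA p E u (j + 1) +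
    X * (3 + X) ^ 2 * SA p E u j) * h'

theorem a_contig (h3 : 3 < p) (E : ℕ) (hE : ∀ k, k < p → E < 3 * k → cK p k = 0) :
    9 * (1 - X) ^ 2 * (2 + X) * SA p E (cK p) 2 =
    X * (3 + X) ^ 2 * (9 * SA p E (cK p) 1 + 2 * SA p E (cK p) 0) := by
  have h := S_contig p h3 E (PA p) (1 + X) hE
  have h' := h54 p h3
  change (1 + X) ^ 3 * SA p E (cK p) 2 = PA p * (27 * SA p E (cK p) 2 + 27 * SA p E (cK p) 1 +
    6 * SA p E (cK p) 0) at h
  unfold PA at h
  linear_combination 18 * h + X * (3 + X) ^ 2 * (9 * SA p E (cK p) 2 + 9 * SA p E (cK p) 1 +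
    2 * SA p E (cK p) 0) * h'

theorem a_contig' (h3 : 3 < p) (E : ℕ) (hE : ∀ k, k < p → E < 3 * k → cK p k = 0)
    (hE' : ∀ k, k < p → E < 3 * k → gam p k = 0) :
    9 * (1 - X) ^ 2 * (2 + X) * SA p E (gam p) 2 =
    X * (3 + X) ^ 2 * (9 * SA p E (gam p) 1 + 2 * SA p E (gam p) 0 + 18 * SA p E (cK p) 1 +
      9 * SA p E (cK p) 0) - 36 * (1 + X) ^ 3 * SA p E (cK p) 1 := by
  have h := S_contig' p h3 E (PA p) (1 + X) hE hE'
  have h' := h54 p h3
  change (1 + X) ^ 3 * (SA p E (gam p) 2 + 2 * SA p E (cK p) 1) = PA p * (27 * SA p E (gam p) 2 +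
    27 * SA p E (gam p) 1 + 6 * SA p E (gam p) 0 + 54 * SA p E (cK p) 1 +
    27 * SA p E (cK p) 0) at h
  unfold PA at h
  linear_combination 18 * h + X * (3 + X) ^ 2 * (9 * SA p E (gam p) 2 + 9 * SA p E (gam p) 1 +
    2 * SA p E (gam p) 0 + 18 * SA p E (cK p) 1 + 9 * SA p E (cK p) 0) * h'

/-- the operator on a solution of the first order system -/
theorem MM_A_aux (S0 S1 S2 : (ZMod p)[X])
    (r0 : X * (3 + X) * (1 + X) * derivative S0 = 3 * (1 - X) * S1 - X * (3 + X) * S0)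
    (r1 : X * (3 + X) * (1 + X) * derivative S1 = 3 * (1 - X) * S2 - X * (3 + X) * S1) :
    (1 + X) ^ 2 * (X * (3 + X)) * MM p S0 = (1 - X) * (9 * (1 - X) ^ 2 * (2 + X) * S2 -
      X * (3 + X) ^ 2 * (9 * S1 + 2 * S0)) := by
  obtain ⟨Y, hY⟩ : ∃ Y, Y = X * (3 + X) * derivative S0 := ⟨_, rfl⟩
  have e1 : (1 + X) * Y = 3 * (1 - X) * S1 - X * (3 + X) * S0 := by
    rw [hY, ← r0]; ring
  have e2 := congrArg derivative e1
  simp only [derivative_mul, derivative_add, derivative_sub, derivative_one, derivative_X,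
    derivative_ofNat] at e2
  unfold MM
  rw [show X * (1 - X) * (2 + X) * (3 + X) * derivative S0 = (1 - X) * (2 + X) * Y by
    rw [hY]; ring]
  simp only [derivative_mul, derivative_add, derivative_sub, derivative_one, derivative_X,
    derivative_ofNat]
  linear_combination (X * (3 + X)) * ((-1 - 2 * X) * (1 + X) - 2 * ((1 - X) * (2 + X))) * e1
    + (X * (3 + X)) * ((1 - X) * (2 + X)) * (1 + X) * (e2 + hY)
    + 3 * ((1 - X) * (2 + X)) * (1 - X) * r1

theorem MM_A (h3 : 3 < p) (E : ℕ) (hE : (E : ZMod p) = -1)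
    (hu : ∀ k, k < p → E < 3 * k → cK p k = 0) : MM p (SA p E (cK p) 0) = 0 := by
  have r0 := a_deriv p h3 E hE (cK p) hu 0
  have r1 := a_deriv p h3 E hE (cK p) hu 1
  rw [show (1 + 1 : ℕ) = 2 from rfl] at r1
  rw [show (0 + 1 : ℕ) = 1 from rfl] at r0
  have h := MM_A_aux p _ _ _ r0 r1
  rw [a_contig p h3 E hu, sub_self, mul_zero] at h
  exact (mul_eq_zero.1 h).resolve_left (mul_ne_zero (pow_ne_zero _ (oneAdd_ne p))
    (mul_ne_zero X_ne_zero (threeAdd_ne p)))

theorem MM_A' (h3 : 3 < p) (E : ℕ) (hE : (E : ZMod p) = -1)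
    (hu : ∀ k, k < p → E < 3 * k → cK p k = 0) (hu' : ∀ k, k < p → E < 3 * k → gam p k = 0) :
    (1 + X) ^ 2 * MM p (SA p E (gam p) 0) = -6 * (1 - X) ^ 2 * (2 + X) *
      ((1 + X) * derivative (SA p E (cK p) 0) + SA p E (cK p) 0) +
      9 * (1 - X) * (3 + X) * SA p E (cK p) 0 := by
  have r0 := a_deriv p h3 E hE (gam p) hu' 0
  have r1 := a_deriv p h3 E hE (gam p) hu' 1
  have r0c := a_deriv p h3 E hE (cK p) hu 0
  rw [show (1 + 1 : ℕ) = 2 from rfl] at r1
  rw [show (0 + 1 : ℕ) = 1 from rfl] at r0 r0c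
  have h := MM_A_aux p _ _ _ r0 r1
  rw [a_contig' p h3 E hu hu'] at h
  apply mul_left_cancel₀ (mul_ne_zero (X_ne_zero (R := ZMod p)) (threeAdd_ne p))
  linear_combination h + 6 * (1 - X) ^ 2 * (2 + X) * r0c

end Pool.Agent.T9h95.S3
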