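import Pool.Agent.Q267.MW.KeyLeg

set_option autoImplicit false

/-!
# Unramified quadratic extensions of `ℤ/p²`
-/

namespace Pool.Agent.T9h95.S3

open Finset Pool.Agent.Q267.CDE Pool.Agent.Q267.MW

/-- reduction of `(ℤ/p²)[√d]` to `𝔽_p[√d]` -/
def rho (p : ℕ) [Fact p.Prime] (d : ℤ) :
    QuadraticAlgebra (R p) (d : R p) 0 →+* QuadraticAlgebra (ZMod p) (d : ZMod p) 0 where
  toFun z := ⟨red p z.re, red p z.im⟩
  map_one' := by
    apply QuadraticAlgebra.ext
    · exact map_one (red p)
    · exact map_zero (red p)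
  map_zero' := by
    apply QuadraticAlgebra.ext
    · exact map_zero (red p)
    · exact map_zero (red p)
  map_mul' x y := by
    apply QuadraticAlgebra.ext
    · show red p (x * y).re = _
      rw [QuadraticAlgebra.re_mul, QuadraticAlgebra.re_mul, map_add, map_mul, map_mul, map_mul,
        map_intCast]
    · show red p (x * y).im = _
      rw [QuadraticAlgebra.im_mul, QuadraticAlgebra.im_mul, map_add, map_add, map_mul, map_mul,
        map_mul, map_mul, map_zero]
  map_add' x y := by
    apply QuadraticAlgebra.ext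
    · exact map_add (red p) _ _
    · exact map_add (red p) _ _

theorem quad_ext (p : ℕ) [hp : Fact p.Prime] (d : ℤ) (hd : ∀ r : ZMod p, r ^ 2 ≠ (d : ZMod p)) :
    ∃ (A : Type) (_ : CommRing A) (_ : Algebra (R p) A) (K : Type) (_ : Field K)
      (_ : Algebra (ZMod p) K) (rh : A →+* K) (s : A), s ^ 2 = (d : A) ∧
      Function.Injective (algebraMap (R p) A) ∧ (∀ x, rh x = 0 → ∃ y, x = p * y) := by
  have hF : Fact (∀ r : ZMod p, r ^ 2 ≠ (d : ZMod p) + 0 * r) := ⟨by
    intro r hr
    exact hd r (by linear_combination hr)⟩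
  refine ⟨QuadraticAlgebra (R p) (d : R p) 0, inferInstance, inferInstance,
    QuadraticAlgebra (ZMod p) (d : ZMod p) 0, inferInstance, inferInstance, rho p d,
    QuadraticAlgebra.omega, ?_, ?_, ?_⟩
  · refine (pow_two _).trans (QuadraticAlgebra.omega_mul_omega_eq_mk.trans ?_)
    apply QuadraticAlgebra.ext
    · rfl
    · rfl
  · intro x y hxy
    have h1 := congrArg QuadraticAlgebra.re hxy
    exact h1
  · intro x hx
    have h1 : red p x.re = 0 := congrArg QuadraticAlgebra.re hx
    have h2 : red p x.im = 0 := congrArg QuadraticAlgebra.im hx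
    obtain ⟨u, hu⟩ := red_eq_of p x.re 0 (by rw [h1, map_zero])
    obtain ⟨v, hv⟩ := red_eq_of p x.im 0 (by rw [h2, map_zero])
    rw [zero_add] at hu hv
    refine ⟨⟨u, v⟩, ?_⟩
    apply QuadraticAlgebra.ext
    · rw [QuadraticAlgebra.re_mul, QuadraticAlgebra.re_natCast, QuadraticAlgebra.im_natCast, hu]
      ring
    · rw [QuadraticAlgebra.im_mul, QuadraticAlgebra.re_natCast, QuadraticAlgebra.im_natCast, hv]
      ring

end Pool.Agent.T9h95.S3
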