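import Pool.Agent.T9h95.S3.Coef

set_option autoImplicit false

/-!
# The first order systems of the truncated hypergeometric polynomials of signature 3
-/

namespace Pool.Agent.T9h95.S3

open Finset Polynomial

variable (p : ℕ) [hp : Fact p.Prime]

/-- `∑ u_k k^j A^k Q^(E-3k)` -/
noncomputable def S (E : ℕ) (A Q : (ZMod p)[X]) (u : ℕ → ZMod p) (j : ℕ) : (ZMod p)[X] :=
  ∑ k ∈ range p, C (u k * (k : ZMod p) ^ j) * A ^ k * Q ^ (E - 3 * k)

theorem mul_pow_pred (A : (ZMod p)[X]) (k : ℕ) :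
    A * (C (k : ZMod p) * A ^ (k - 1)) = C (k : ZMod p) * A ^ k := by
  rcases k with _ | k
  · simp
  · simp only [Nat.add_sub_cancel]; ring

theorem S_deriv (E : ℕ) (A Q : (ZMod p)[X]) (u : ℕ → ZMod p)
    (hu : ∀ k, k < p → E < 3 * k → u k = 0) (j : ℕ) :
    A * Q * derivative (S p E A Q u j) =
      (derivative A * Q - 3 * A * derivative Q) * S p E A Q u (j + 1)
        + C (E : ZMod p) * A * derivative Q * S p E A Q u j := by
  unfold S
  rw [derivative_sum, mul_sum, mul_sum, mul_sum, ← sum_add_distrib]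
  refine sum_congr rfl fun k hk => ?_
  have hk' : k < p := mem_range.mp hk
  by_cases hE : E < 3 * k
  · rw [hu k hk' hE]
    simp
  have e1 : derivative (C (u k * (k : ZMod p) ^ j) * A ^ k * Q ^ (E - 3 * k)) =
      C (u k * (k : ZMod p) ^ j) *
        ((C (k : ZMod p) * A ^ (k - 1) * derivative A) * Q ^ (E - 3 * k)
          + A ^ k * (C ((E - 3 * k : ℕ) : ZMod p) * Q ^ (E - 3 * k - 1) * derivative Q)) := by
    rw [derivative_mul, derivative_mul, derivative_C, derivative_pow, derivative_pow]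
    ring
  rw [e1]
  have h1 := mul_pow_pred p A k
  have h2 := mul_pow_pred p Q (E - 3 * k)
  have h3 : (C ((E - 3 * k : ℕ) : ZMod p) : (ZMod p)[X]) = C (E : ZMod p) - 3 * C (k : ZMod p) := by
    rw [Nat.cast_sub (by omega), Nat.cast_mul, C_sub, C_mul]
    push_cast
    rw [map_ofNat]
  have h4 : (C (u k * (k : ZMod p) ^ (j + 1)) : (ZMod p)[X]) =
      C (u k * (k : ZMod p) ^ j) * C (k : ZMod p) := by
    rw [← C_mul]; congr 1; ring
  rw [h4]
  rw [h3] at h2 ⊢
  linear_combination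
    (C (u k * (k : ZMod p) ^ j) * derivative A * Q ^ (E - 3 * k) * Q) * h1
    + (C (u k * (k : ZMod p) ^ j) * derivative Q * A ^ k * A) * h2

theorem S_shift (E : ℕ) (A Q : (ZMod p)[X]) (u v : ℕ → ZMod p) (h0 : u 0 = 0) (hl : v (p - 1) = 0)
    (h : ∀ k, k + 1 < p → u (k + 1) = v k) (hu : ∀ k, k < p → E < 3 * k → u k = 0) :
    Q ^ 3 * ∑ k ∈ range p, C (u k) * A ^ k * Q ^ (E - 3 * k) =
      A * ∑ k ∈ range p, C (v k) * A ^ k * Q ^ (E - 3 * k) := by
  obtain ⟨q, hq⟩ : ∃ q, p = q + 1 := ⟨p - 1, by have := hp.out.pos; omega⟩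
  have hr : range p = range (q + 1) := by rw [hq]
  rw [hr, sum_range_succ', sum_range_succ, h0]
  rw [show p - 1 = q by omega] at hl
  rw [hl, C_0, zero_mul, zero_mul, zero_mul, zero_mul, add_zero, add_zero, mul_sum, mul_sum]
  refine sum_congr rfl fun k hk => ?_
  have hk' : k < q := by simpa using hk
  have h1 := h k (by omega)
  by_cases hE : E < 3 * (k + 1)
  · have h2 := hu (k + 1) (by omega) hE
    rw [h2] at h1
    rw [h2, ← h1]
    simp
  · rw [show E - 3 * k = (E - 3 * (k + 1)) + 3 by omega, pow_add Q, pow_succ A, h1]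
    ring

/-- the coefficients in the field -/
def cK (k : ℕ) : ZMod p := ((c k : ℕ) : ZMod p)

theorem cK_succ (k : ℕ) : cK p (k + 1) * ((k : ZMod p) + 1) ^ 2 =
    3 * (9 * (k : ZMod p) ^ 2 + 9 * k + 2) * cK p k := by
  have hc := c_succ k
  have hc' := congrArg (Nat.cast (R := ZMod p)) hc
  push_cast at hc'
  unfold cK
  linear_combination hc'

theorem C_ofNat' (n : ℕ) : (C ((n : ℕ) : ZMod p) : (ZMod p)[X]) = (n : (ZMod p)[X]) := by
  simp

theorem cK_last (h3 : 3 < p) : cK p (p - 1) = 0 := c_cast_zero p (p - 1) (by omega) (by omega)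

theorem gam_last (h3 : 3 < p) : gam p (p - 1) = 0 := gam_big p (p - 1) (by omega) (by omega)

/-- the contiguous relation of the coefficients -/
theorem S_contig (h3 : 3 < p) (E : ℕ) (A Q : (ZMod p)[X])
    (hE : ∀ k, k < p → E < 3 * k → cK p k = 0) :
    Q ^ 3 * S p E A Q (cK p) 2 =
      A * (27 * S p E A Q (cK p) 2 + 27 * S p E A Q (cK p) 1 + 6 * S p E A Q (cK p) 0) := by
  have h := S_shift p E A Q (fun k => cK p k * (k : ZMod p) ^ 2)
    (fun k => 3 * (9 * (k : ZMod p) ^ 2 + 9 * k + 2) * cK p k) (by simp)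
    (by rw [cK_last p h3, mul_zero]) (by
      intro k hk
      have := cK_succ p k
      push_cast
      exact this) (by
      intro k hk hk2
      rw [hE k hk hk2, zero_mul])
  have e : (27 * S p E A Q (cK p) 2 + 27 * S p E A Q (cK p) 1 + 6 * S p E A Q (cK p) 0) =
      ∑ k ∈ range p, C (3 * (9 * (k : ZMod p) ^ 2 + 9 * k + 2) * cK p k) * A ^ k * Q ^ (E - 3 * k) := by
    unfold S
    rw [mul_sum, mul_sum, mul_sum, ← sum_add_distrib, ← sum_add_distrib]
    refine sum_congr rfl fun k _ => ?_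
    simp only [C_mul, C_pow, C_add, map_ofNat]
    ring
  rw [e]
  exact h

/-- the contiguous relation of the logarithmic companions -/
theorem S_contig' (h3 : 3 < p) (E : ℕ) (A Q : (ZMod p)[X])
    (hE : ∀ k, k < p → E < 3 * k → cK p k = 0) (hE' : ∀ k, k < p → E < 3 * k → gam p k = 0) :
    Q ^ 3 * (S p E A Q (gam p) 2 + 2 * S p E A Q (cK p) 1) =
      A * (27 * S p E A Q (gam p) 2 + 27 * S p E A Q (gam p) 1 + 6 * S p E A Q (gam p) 0
        + 54 * S p E A Q (cK p) 1 + 27 * S p E A Q (cK p) 0) := by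
  have h := S_shift p E A Q (fun k => gam p k * (k : ZMod p) ^ 2 + 2 * cK p k * (k : ZMod p))
    (fun k => 3 * (9 * (k : ZMod p) ^ 2 + 9 * k + 2) * gam p k + 27 * (2 * (k : ZMod p) + 1) * cK p k)
    (by simp)
    (by rw [cK_last p h3, gam_last p h3, mul_zero, mul_zero, add_zero]) (by
      intro k hk
      have := gam_succ p h3 k hk
      unfold cK
      push_cast
      linear_combination this) (by
      intro k hk hk2
      rw [hE k hk hk2, hE' k hk hk2]
      ring)
  have e : (27 * S p E A Q (gam p) 2 + 27 * S p E A Q (gam p) 1 + 6 * S p E A Q (gam p) 0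
        + 54 * S p E A Q (cK p) 1 + 27 * S p E A Q (cK p) 0) =
      ∑ k ∈ range p, C (3 * (9 * (k : ZMod p) ^ 2 + 9 * k + 2) * gam p k +
        27 * (2 * (k : ZMod p) + 1) * cK p k) * A ^ k * Q ^ (E - 3 * k) := by
    unfold S
    rw [mul_sum, mul_sum, mul_sum, mul_sum, mul_sum, ← sum_add_distrib, ← sum_add_distrib,
      ← sum_add_distrib, ← sum_add_distrib]
    refine sum_congr rfl fun k _ => ?_
    simp only [C_mul, C_pow, C_add, map_ofNat, C_1]
    ring
  have e2 : S p E A Q (gam p) 2 + 2 * S p E A Q (cK p) 1 =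
      ∑ k ∈ range p, C (gam p k * (k : ZMod p) ^ 2 + 2 * cK p k * (k : ZMod p)) * A ^ k *
        Q ^ (E - 3 * k) := by
    unfold S
    rw [mul_sum, ← sum_add_distrib]
    refine sum_congr rfl fun k _ => ?_
    simp only [C_mul, C_pow, C_add, map_ofNat]
    ring
  rw [e, e2]
  exact h

end Pool.Agent.T9h95.S3
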